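import Pool.Agent.Helper537_Nf.IntLem
import Pool.Agent.Helper537_All.Root
set_option autoImplicit false

/-!
Points of the curve `z + 1/z = w x² - w - 1/w`, `w` a unit of a quadratic field, with rational `x` and
`z` a root of unity.
-/

namespace Pool.Agent.Helper537_Nf

open Polynomial NumberField
open Pool.Agent.Helper537_All (exists_w pow_one_of)

/-- The conjugation of a quadratic field. -/
theorem exists_conj {K : Type*} [Field K] [NumberField K] (h2 : Module.finrank ℚ K = 2) :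
    ∃ bar : K →+* K, (∀ x, bar (bar x) = x) ∧ ∀ α, IsIntegral ℤ α →
      (∃ t : ℤ, α + bar α = t) ∧ ∃ n : ℤ, α * bar α = n := by
  have hq : Algebra.IsQuadraticExtension ℚ K := { finrank_eq_two' := h2 }
  have hg : IsGalois ℚ K := inferInstance
  have hcard : Nat.card (K ≃ₐ[ℚ] K) = 2 := by
    rw [IsGalois.card_aut_eq_finrank, h2]
  obtain ⟨σ, hσ, hu⟩ := (Nat.card_eq_two_iff' (1 : K ≃ₐ[ℚ] K)).1 hcard
  have hσσ : σ * σ = 1 := by
    by_contra h
    have h1 := hu _ h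
    exact hσ (mul_left_cancel (a := σ) (by rw [h1, mul_one]))
  have hfix : ∀ x : K, IsIntegral ℤ x → σ x = x → ∃ m : ℤ, x = m := by
    intro x hx h
    have h1 : x ∈ Set.range (algebraMap ℚ K) := by
      rw [IsGalois.mem_range_algebraMap_iff_fixed]
      intro f
      by_cases hf : f = 1
      · rw [hf]
        rfl
      · rw [hu f hf]
        exact h
    obtain ⟨q, rfl⟩ := h1
    have h2 : IsIntegral ℤ q :=
      (isIntegral_algebraMap_iff (algebraMap ℚ K).injective).1 hx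
    obtain ⟨m, hm⟩ := IsIntegrallyClosed.isIntegral_iff.1 h2
    refine ⟨m, ?_⟩
    rw [← hm]
    simp
  have hinv : ∀ x, σ (σ x) = x := fun x => by
    have := congrArg (fun f : K ≃ₐ[ℚ] K => f x) hσσ
    exact this
  have hint : ∀ x, IsIntegral ℤ x → IsIntegral ℤ (σ x) := fun x hx => hx.map (σ : K →+* K).toIntAlgHom
  refine ⟨(σ : K →+* K), hinv, fun α hα => ⟨?_, ?_⟩⟩
  · refine hfix _ (hα.add (hint α hα)) ?_
    show σ (α + σ α) = α + σ α
    rw [map_add, hinv, add_comm]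
  · refine hfix _ (hα.mul (hint α hα)) ?_
    show σ (α * σ α) = α * σ α
    rw [map_mul, hinv, mul_comm]

/-- A point with a root of unity: dickson polynomials. -/
theorem special_iff {K : Type*} [Field K] (s : K →+* ℂ) {τ : K} {j : ℕ} :
    (∃ ζ : ℂ, ζ ^ j = 1 ∧ ζ ≠ 0 ∧ s τ = ζ + ζ⁻¹) ↔ (dickson 1 (1 : K) j).eval τ = 2 := by
  constructor
  · rintro ⟨ζ, h1, h0, h2⟩
    apply s.injective
    rw [← eval_map_apply, map_dickson, map_one, h2,
      dickson_one_one_eval_add_inv _ _ (mul_inv_cancel₀ h0), map_ofNat, inv_pow, h1]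
    norm_num
  · intro h
    obtain ⟨ζ, h0, hζ⟩ := exists_w (s τ)
    refine ⟨ζ, ?_, h0, hζ⟩
    apply pow_one_of h0
    have h8 := congrArg s h
    rw [← eval_map_apply, map_dickson, map_one, hζ,
      dickson_one_one_eval_add_inv _ _ (mul_inv_cancel₀ h0), map_ofNat] at h8
    exact h8

theorem real_of_root {ζ : ℂ} {j : ℕ} (hj : j ≠ 0) (h : ζ ^ j = 1) :
    ∃ x : ℝ, ζ + ζ⁻¹ = x ∧ -2 ≤ x ∧ x ≤ 2 := by
  have h1 : ‖ζ‖ = 1 := by
    have h3 := congrArg norm h
    rw [norm_pow, norm_one] at h3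
    exact (pow_eq_one_iff_of_nonneg (norm_nonneg _) hj).1 h3
  refine ⟨2 * ζ.re, ?_, ?_, ?_⟩
  · rw [Complex.inv_eq_conj h1, Complex.add_conj]
  · have := abs_le.1 (Complex.abs_re_le_norm ζ)
    rw [h1] at this
    linarith [this.1]
  · have := abs_le.1 (Complex.abs_re_le_norm ζ)
    rw [h1] at this
    linarith [this.2]

/-- The sums of a root of unity and its inverse in a quadratic field. -/
theorem special_cases {K : Type*} [Field K] [NumberField K] {bar : K →+* K}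
    (hbar : ∀ α, IsIntegral ℤ α → (∃ t : ℤ, α + bar α = t) ∧ ∃ n : ℤ, α * bar α = n)
    (s : K →+* ℂ) {τ : K} {ζ : ℂ} {j : ℕ} (hj : j ≠ 0) (hζ : ζ ^ j = 1) (hs : s τ = ζ + ζ⁻¹) :
    (∃ σ : ℤ, (σ = 0 ∨ σ = 1 ∨ σ = -1 ∨ σ = 2 ∨ σ = -2) ∧ τ = σ) ∨
    (τ + bar τ = 0 ∧ τ * bar τ = -2) ∨ (τ + bar τ = 0 ∧ τ * bar τ = -3) ∨
    ∃ ε : ℤ, (ε = 1 ∨ ε = -1) ∧ τ + bar τ = ε ∧ τ * bar τ = -1 := by
  have hζ0 : ζ ≠ 0 := by
    rintro rfl
    rw [zero_pow hj] at hζ
    exact zero_ne_one hζ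
  have hζi : IsIntegral ℤ ζ := IsIntegral.of_pow (Nat.pos_of_ne_zero hj) (by
    rw [hζ]
    exact isIntegral_one)
  have hζi' : IsIntegral ℤ ζ⁻¹ := IsIntegral.of_pow (Nat.pos_of_ne_zero hj) (by
    rw [inv_pow, hζ, inv_one]
    exact isIntegral_one)
  have hτ : IsIntegral ℤ τ := by
    have h1 : IsIntegral ℤ (s τ) := by
      rw [hs]
      exact hζi.add hζi'
    exact (isIntegral_algHom_iff s.toIntAlgHom s.injective).1 h1
  obtain ⟨⟨a, ha⟩, ⟨b, hb⟩⟩ := hbar τ hτ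
  have h1 : (dickson 1 (1 : K) j).eval τ = 2 := (special_iff s).1 ⟨ζ, hζ, hζ0, hs⟩
  have h2 : (dickson 1 (1 : K) j).eval (bar τ) = 2 := by
    have h3 := congrArg bar h1
    rw [← eval_map_apply, map_dickson, map_one, map_ofNat] at h3
    exact h3
  obtain ⟨ζ', hζ', -, hs'⟩ := (special_iff s).2 h2
  obtain ⟨x, hx, hx1, hx2⟩ := real_of_root hj hζ
  obtain ⟨y, hy, hy1, hy2⟩ := real_of_root hj hζ'
  rw [hx] at hs
  rw [hy] at hs'
  have hsa : x + y = a := by
    have h3 := congrArg s ha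
    rw [map_add, hs, hs', map_intCast] at h3
    exact_mod_cast h3
  have hsb : x * y = b := by
    have h3 := congrArg s hb
    rw [map_mul, hs, hs', map_intCast] at h3
    exact_mod_cast h3
  have c1 : 0 ≤ a ^ 2 - 4 * b := by
    have : (0 : ℝ) ≤ (a : ℝ) ^ 2 - 4 * b := by rw [← hsa, ← hsb]; nlinarith [sq_nonneg (x - y)]
    exact_mod_cast this
  have c2 : 0 ≤ 4 - 2 * a + b := by
    have : (0 : ℝ) ≤ 4 - 2 * (a : ℝ) + b := by
      rw [← hsa, ← hsb]
      nlinarith [mul_nonneg (by linarith : (0 : ℝ) ≤ 2 - x) (by linarith : (0 : ℝ) ≤ 2 - y)]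
    exact_mod_cast this
  have c3 : 0 ≤ 4 + 2 * a + b := by
    have : (0 : ℝ) ≤ 4 + 2 * (a : ℝ) + b := by
      rw [← hsa, ← hsb]
      nlinarith [mul_nonneg (by linarith : (0 : ℝ) ≤ 2 + x) (by linarith : (0 : ℝ) ≤ 2 + y)]
    exact_mod_cast this
  have c4 : a ≤ 4 := by
    have : (a : ℝ) ≤ 4 := by rw [← hsa]; linarith
    exact_mod_cast this
  have c5 : -4 ≤ a := by
    have : (-4 : ℝ) ≤ a := by rw [← hsa]; linarith
    exact_mod_cast this
  have hquad : τ ^ 2 - a * τ + b = 0 := by rw [← ha, ← hb]; ring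
  rcases cases19 c1 c2 c3 c4 c5 with ⟨u, v, h3, h4, hu, hv⟩ | ⟨h3, h4⟩ | ⟨h3, h4⟩ | ⟨h3, h4⟩
  · left
    have h5 : (τ - u) * (τ - v) = 0 := by
      rw [← h3, ← h4] at hquad
      push_cast at hquad
      linear_combination hquad
    rcases mul_eq_zero.1 h5 with h6 | h6
    · exact ⟨u, hu, sub_eq_zero.1 h6⟩
    · exact ⟨v, hv, sub_eq_zero.1 h6⟩
  · right; left
    rw [ha, hb, h3, h4]
    exact ⟨by norm_num, by norm_num⟩
  · right; right; left
    rw [ha, hb, h3, h4]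
    exact ⟨by norm_num, by norm_num⟩
  · right; right; right
    refine ⟨a, h3, ha, ?_⟩
    rw [hb, h4]
    norm_num

/-- A product of conjugates. -/
theorem prod_eq {R : Type*} [CommRing R] (W V τ τ' : R) :
    (W ^ 2 + τ * W + 1) * (V ^ 2 + τ' * V + 1) = (W * V) ^ 2 + (W * V) * (τ' * W + τ * V) +
      ((W + V) ^ 2 - 2 * (W * V)) + τ * τ' * (W * V) + (τ * W + τ' * V) + 1 := by
  ring

/-- The points of the curve with rational `x` and a root of unity `z`. -/
theorem torsion_points {K : Type*} [Field K] [NumberField K] (h2 : Module.finrank ℚ K = 2)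
    (w : (𝓞 K)ˣ) (hw : ∀ n : ℕ, n ≠ 0 → w ^ n ≠ 1)
    (h3 : (w : K) ^ 4 - 3 * (w : K) ^ 2 + 1 ≠ 0) (h7 : (w : K) ^ 4 - 7 * (w : K) ^ 2 + 1 ≠ 0)
    (s : K →+* ℂ) (c : K) (ζ : ℂ) (j : ℕ) (hj : j ≠ 0) (hζ : ζ ^ j = 1)
    (hs : s ((w : K) * c ^ 2 + -((w : K) + (w : K)⁻¹)) = ζ + ζ⁻¹) :
    ∃ σ : ℤ, (σ = 2 ∨ σ = -2) ∧ (w : K) * c ^ 2 + -((w : K) + (w : K)⁻¹) = σ := by
  obtain ⟨bar, hbb, hbar⟩ := exists_conj h2
  have hw0 : (w : K) ≠ 0 := NumberField.Units.coe_ne_zero w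
  have iw : IsIntegral ℤ (w : K) := RingOfIntegers.isIntegral_coe _
  have hinv : ((w⁻¹ : (𝓞 K)ˣ) : K) = (w : K)⁻¹ := by
    refine eq_inv_of_mul_eq_one_left ?_
    rw [← map_mul, ← Units.val_mul, inv_mul_cancel, Units.val_one, map_one]
  have iw' : IsIntegral ℤ (w : K)⁻¹ := by
    rw [← hinv]
    exact RingOfIntegers.isIntegral_coe _
  set τ : K := (w : K) * c ^ 2 + -((w : K) + (w : K)⁻¹) with hτ
  set W : K := (w : K) with hW
  obtain ⟨⟨t, ht⟩, ⟨n, hn⟩⟩ := hbar W iw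
  obtain ⟨-, ⟨n', hn'⟩⟩ := hbar _ iw'
  have hnn : n * n' = 1 := by
    have h : ((n * n' : ℤ) : K) = 1 := by
      push_cast
      rw [← hn, ← hn', map_inv₀]
      have : bar W ≠ 0 := (map_ne_zero bar).2 hw0
      field_simp
    exact_mod_cast h
  have hn1 : n = 1 ∨ n = -1 := Int.eq_one_or_neg_one_of_mul_eq_one hnn
  have hn2 : n ^ 2 = 1 := by rcases hn1 with rfl | rfl <;> norm_num
  -- the exceptional values of `t² - 2 n`
  have hquart : W ^ 4 - ((t ^ 2 - 2 * n : ℤ) : K) * W ^ 2 + 1 = 0 := by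
    have h1 : W ^ 2 - t * W + n = 0 := by rw [← ht, ← hn]; ring
    have h4 : ((n : K)) ^ 2 = 1 := by exact_mod_cast hn2
    push_cast
    linear_combination (W ^ 2 + t * W + n) * h1 - h4
  have hne : ∀ m : ℕ, m ≠ 0 → W ^ m ≠ 1 := by
    intro m hm h
    apply hw m hm
    apply Units.ext
    apply RingOfIntegers.ext
    rw [Units.val_pow_eq_pow_val, Units.val_one]
    have h2 : (algebraMap (𝓞 K) K) ((w : 𝓞 K) ^ m) = (algebraMap (𝓞 K) K) 1 := by
      rw [map_pow, map_one]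
      exact h
    exact h2
  have hexc : ¬ Exc (t ^ 2 - 2 * n) := by
    rintro (h | h | h | h | h) <;> rw [h] at hquart <;> push_cast at hquart
    · have h4 : (W ^ 2 - 1) ^ 2 = 0 := by linear_combination hquart
      exact hne 2 (by norm_num) (sub_eq_zero.1 (pow_eq_zero_iff two_ne_zero |>.1 h4))
    · have h4 : (W ^ 2 + 1) ^ 2 = 0 := by linear_combination hquart
      have h5 := pow_eq_zero_iff two_ne_zero |>.1 h4
      exact hne 4 (by norm_num) (by linear_combination (W ^ 2 - 1) * h5)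
    · exact hne 6 (by norm_num) (by linear_combination (W ^ 2 - 1) * hquart)
    · exact h7 hquart
    · exact h3 hquart
  -- the square
  have hτi : IsIntegral ℤ τ := by
    have h1 : IsIntegral ℤ (s τ) := by
      rw [hs]
      refine IsIntegral.add ?_ ?_
      · exact IsIntegral.of_pow (Nat.pos_of_ne_zero hj) (by rw [hζ]; exact isIntegral_one)
      · exact IsIntegral.of_pow (Nat.pos_of_ne_zero hj) (by
          rw [inv_pow, hζ, inv_one]; exact isIntegral_one)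
    exact (isIntegral_algHom_iff s.toIntAlgHom s.injective).1 h1
  set Y : K := W * c with hY
  have hYY : Y ^ 2 = W ^ 2 + τ * W + 1 := by
    have h1 : W * W⁻¹ = 1 := mul_inv_cancel₀ hw0
    rw [hY, hτ]
    linear_combination h1
  have hYi : IsIntegral ℤ Y := IsIntegral.of_pow (n := 2) (by norm_num) (by
    rw [hYY]
    exact ((iw.pow 2).add (hτi.mul iw)).add isIntegral_one)
  obtain ⟨⟨k, hk⟩, ⟨m, hm⟩⟩ := hbar Y hYi
  have hYY' : (bar Y) ^ 2 = (bar W) ^ 2 + bar τ * bar W + 1 := by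
    have h1 := congrArg bar hYY
    simpa only [map_add, map_mul, map_pow, map_one] using h1
  have hm2 : ((m : ℤ) : K) ^ 2 = (W ^ 2 + τ * W + 1) * ((bar W) ^ 2 + bar τ * bar W + 1) := by
    rw [← hYY, ← hYY', ← hm]
    ring
  have hk2 : ((k : ℤ) : K) ^ 2 = (W ^ 2 + τ * W + 1) + ((bar W) ^ 2 + bar τ * bar W + 1) + 2 * m := by
    rw [← hYY, ← hYY', ← hm, ← hk]
    ring
  have hn2' : (n : K) ^ 2 = 1 := by exact_mod_cast hn2
  -- integers `S`, `S'`
  have hτbi : IsIntegral ℤ (bar τ) := hτi.map bar.toIntAlgHom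
  obtain ⟨⟨S, hS⟩, -⟩ := hbar _ (hτi.mul iw)
  obtain ⟨⟨S', hS'⟩, -⟩ := hbar _ (hτbi.mul iw)
  rw [map_mul] at hS
  rw [map_mul, hbb] at hS'
  have hm3 : ((m : ℤ) : K) ^ 2 = 1 + n * S' + (t ^ 2 - 2 * n) + τ * bar τ * n + S + 1 := by
    rw [hm2, prod_eq, hn, hn2', ht, hS, hS']
  have hk3 : ((k : ℤ) : K) ^ 2 = (t ^ 2 - 2 * n) + S + 2 + 2 * m := by
    rw [hk2, ← ht, ← hn, ← hS]
    ring
  rcases special_cases hbar s hj hζ hs with ⟨σ, hσ, hτσ⟩ | ⟨ha, hb⟩ | ⟨ha, hb⟩ | ⟨ε, hε, ha, hb⟩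
  · have hbτ : bar τ = σ := by rw [hτσ, map_intCast]
    have hSσ : S = σ * t := by
      have h : (S : K) = σ * t := by
        rw [← hS, ← ht, hbτ]
        nth_rewrite 1 [hτσ]
        ring
      exact_mod_cast h
    have hSσ' : S' = σ * t := by
      have h : (S' : K) = σ * t := by
        rw [← hS', ← ht, hbτ]
        nth_rewrite 1 [hτσ]
        ring
      exact_mod_cast h
    have hm4 : m ^ 2 = 1 + n * S' + (t ^ 2 - 2 * n) + σ * σ * n + S + 1 := by
      have h : ((m ^ 2 : ℤ) : K) = ((1 + n * S' + (t ^ 2 - 2 * n) + σ * σ * n + S + 1 : ℤ) : K) := by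
        push_cast
        rw [hm3, hbτ]
        nth_rewrite 1 [hτσ]
        ring
      exact_mod_cast h
    have hk4 : k ^ 2 = (t ^ 2 - 2 * n) + S + 2 + 2 * m := by exact_mod_cast hk3
    rcases hσ with rfl | rfl | rfl | rfl | rfl
    · exfalso
      apply hexc
      refine lem0 (m := m) (k := k) hn1 ?_ ?_
      · rw [hm4, hSσ, hSσ']; ring
      · rw [hk4, hSσ]; ring
    · exfalso
      apply hexc
      refine lem1 (m := m) (k := k) (ε := 1) (Or.inl rfl) hn1 ?_ ?_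
      · rw [hm4, hSσ, hSσ']; ring
      · rw [hk4, hSσ]
    · exfalso
      apply hexc
      refine lem1 (m := m) (k := k) (ε := -1) (Or.inr rfl) hn1 ?_ ?_
      · rw [hm4, hSσ, hSσ']; ring
      · rw [hk4, hSσ]
    · exact ⟨2, Or.inl rfl, hτσ⟩
    · exact ⟨-2, Or.inr rfl, hτσ⟩
  · exfalso
    apply hexc
    have hτb : bar τ = -τ := eq_neg_of_add_eq_zero_right ha
    have hSS : S' = -S := by
      have h : (S' : K) = -S := by
        rw [← hS', ← hS, hτb]
        ring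
      exact_mod_cast h
    have hS2 : S ^ 2 = 2 * (t ^ 2 - 4 * n) := by
      have h : (S : K) ^ 2 = 2 * (t ^ 2 - 4 * n) := by
        rw [← hS, ← ht, ← hn]
        rw [hτb] at hb ⊢
        linear_combination -(W - bar W) ^ 2 * hb
      exact_mod_cast h
    have hm4 : m ^ 2 = 1 + n * S' + (t ^ 2 - 2 * n) + (-2) * n + S + 1 := by
      have h : ((m : ℤ) : K) ^ 2 = 1 + n * S' + (t ^ 2 - 2 * n) + (-2) * n + S + 1 := by
        rw [hm3, hb]
      exact_mod_cast h
    refine lem2 (m := m) (S := S) hn1 hS2 ?_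
    rw [hm4, hSS]
    ring
  · exfalso
    apply hexc
    have hτb : bar τ = -τ := eq_neg_of_add_eq_zero_right ha
    have hSS : S' = -S := by
      have h : (S' : K) = -S := by
        rw [← hS', ← hS, hτb]
        ring
      exact_mod_cast h
    have hS2 : S ^ 2 = 3 * (t ^ 2 - 4 * n) := by
      have h : (S : K) ^ 2 = 3 * (t ^ 2 - 4 * n) := by
        rw [← hS, ← ht, ← hn]
        rw [hτb] at hb ⊢
        linear_combination -(W - bar W) ^ 2 * hb
      exact_mod_cast h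
    have hm4 : m ^ 2 = 1 + n * S' + (t ^ 2 - 2 * n) + (-3) * n + S + 1 := by
      have h : ((m : ℤ) : K) ^ 2 = 1 + n * S' + (t ^ 2 - 2 * n) + (-3) * n + S + 1 := by
        rw [hm3, hb]
      exact_mod_cast h
    refine lem3 (m := m) (S := S) hn1 hS2 ?_
    rw [hm4, hSS]
    ring
  · exfalso
    apply hexc
    have hε2 : (ε : K) ^ 2 = 1 := by
      rcases hε with rfl | rfl <;> norm_num
    have hSS : S + S' = ε * t := by
      have h : (S : K) + S' = ε * t := by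
        rw [← hS', ← hS, ← ha, ← ht]
        ring
      exact_mod_cast h
    have hU : (S - S') ^ 2 = 5 * (t ^ 2 - 4 * n) := by
      have h : ((S : K) - S') ^ 2 = 5 * (t ^ 2 - 4 * n) := by
        have e1 : ((S : K) - S') = (τ - bar τ) * (W - bar W) := by
          rw [← hS', ← hS]
          ring
        have e2 : (τ - bar τ) ^ 2 = 5 := by
          have : (τ - bar τ) ^ 2 = (τ + bar τ) ^ 2 - 4 * (τ * bar τ) := by ring
          rw [this, ha, hb, hε2]
          norm_num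
        have e3 : (W - bar W) ^ 2 = t ^ 2 - 4 * n := by
          rw [← ht, ← hn]
          ring
        rw [e1, mul_pow, e2, e3]
      exact_mod_cast h
    have hm4 : m ^ 2 = 1 + n * S' + (t ^ 2 - 2 * n) + (-1) * n + S + 1 := by
      have h : ((m : ℤ) : K) ^ 2 = 1 + n * S' + (t ^ 2 - 2 * n) + (-1) * n + S + 1 := by
        rw [hm3, hb]
      exact_mod_cast h
    refine lem5 (m := m) hε hn1 hSS hU ?_
    rw [hm4]
    ring

end Pool.Agent.Helper537_Nf
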