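import Pool.Agent.Helper537_Nf.Main
import Pool.Agent.Helper537_Nf.Arith
set_option autoImplicit false

/-!
The curves `z + 1/z = w x² - w - 1/w`, `w` a unit of a number field.
-/

namespace Pool.Agent.Helper537_Nf

open scoped WithZero
open Polynomial TensorProduct NumberField
open Pool.Agent.TH826.MK (KQ symb unitPart Unramified Torus)
open Pool.Agent.TH826.HD
open Pool.Agent.Helper537_Sym (regR bijective_regR)
open Pool.Agent.TH690.UE
open Pool.Agent.TH690.UF (SmoothPts)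
open Pool.Agent.Y775.UN

section gen

variable {k : Type*} [Field k] [NumberField k] {w : k}

/-- The exact dimension and the regulators on the curve `z + 1/z = w x² - w - 1/w`. -/
theorem main_unit {t p q : k} (ht : t = -(w + w⁻¹)) (hp : p = 1 + w⁻¹) (hq : q = 1 - w⁻¹)
    (h0 : w ≠ 0) (h1 : w ^ 2 ≠ 1) (iw : IsIntegral ℤ w) (iw' : IsIntegral ℤ w⁻¹)
    {s₁ s₂ : k →+* ℂ} (hs1 : 1 < ‖s₁ w‖) (hs2 : ‖s₂ w‖ < 1)
    (L : Type*) [Field L] [Algebra (PRing (qf w t)) L] [IsFractionRing (PRing (qf w t)) L]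
    (hS : ∀ (c : k) (ζ : ℂ) (n : ℕ), n ≠ 0 → ζ ^ n = 1 → s₁ (w * c ^ 2 + t) = ζ + ζ⁻¹ →
      w * c ^ 2 + t = 2 ∨ w * c ^ 2 + t = -2) :
    Module.finrank ℚ (Cls (qf w t) L) = 2 ∧
    ∃ Γ : Fin 2 → Torus L 1,
      (∀ θ (y : k), (Γ 0).e θ (algebraMap (PRing (qf w t)) L (ppol (qf w t) (C y))) = s₁ y) ∧
      (∀ θ (y : k), (Γ 1).e θ (algebraMap (PRing (qf w t)) L (ppol (qf w t) (C y))) = s₂ y) ∧
      Function.Bijective (regR Γ (Cls (qf w t) L)) := by
  have hw1 : w ≠ 1 := fun h => h1 (by rw [h, one_pow])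
  have hwm : w ≠ -1 := fun h => h1 (by rw [h]; norm_num)
  have hp0 : p ≠ 0 := by
    intro h
    apply hwm
    have h2 : w * p = 0 := by rw [h, mul_zero]
    rw [hp, mul_add, mul_one, mul_inv_cancel₀ h0] at h2
    exact eq_neg_of_add_eq_zero_left h2
  have hq0 : q ≠ 0 := by
    intro h
    apply hw1
    have h2 : w * q = 0 := by rw [h, mul_zero]
    rw [hq, mul_sub, mul_one, mul_inv_cancel₀ h0] at h2
    exact sub_eq_zero.1 h2
  obtain ⟨v1, v2⟩ := val_unit h0
  rw [← ht] at v1 v2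
  rw [← hp] at v1
  rw [← hq] at v2
  have sp : ∀ s : k →+* ℂ, Special s (w * p ^ 2 + t) := fun s => by
    rw [v1]; exact special_two _
  have sq : ∀ s : k →+* ℂ, Special s (w * q ^ 2 + t) := fun s => by
    rw [v2]; exact special_neg_two _
  have hdegF : 0 < (qf w t).natDegree := by
    rw [natDegree_qf h0]
    norm_num
  have hinj : Function.Injective (algebraMap (PRing (qf w t)) L) := IsFractionRing.injective _ _
  have hdom : IsDomain (PRing (qf w t)) := isDomain_PRing hdegF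
  have hne : algebraMap (PRing (qf w t)) L (pDel (qf w t) (pts p q)) ≠ 0 := by
    rw [Ne, map_eq_zero_iff _ hinj]
    exact pDel_ne_zero (pts p q)
  set f : POpen (qf w t) (pts p q) →+* L := liftP (algebraMap (PRing (qf w t)) L) hne with hf0
  have hfa : ∀ r, f (toP (qf w t) (pts p q) r) = algebraMap (PRing (qf w t)) L r :=
    fun r => liftP_toP _ _ _
  have hti : IsIntegral ℤ t := by rw [ht]; exact (iw.add iw').neg
  have hpi : IsIntegral ℤ p := by rw [hp]; exact isIntegral_one.add iw'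
  have hqi : IsIntegral ℤ q := by rw [hq]; exact isIntegral_one.sub iw'
  have hunr : ∀ m l, KQ.map 2 f (symb (pent (qf w t) (pts p q) m l)) ∈ Unramified L 2 := by
    intro m l
    refine Pool.Agent.TH826.UH.symb_mem_unramified _ s₁ (integral_qf iw hti) (fun m => ?_) m l
        (fun m => ?_)
    · fin_cases m
      · exact hpi
      · exact hpi.neg
      · exact hqi
      · exact hqi.neg
    · fin_cases m
      · show Special s₁ ((qf w t).eval p)
        rw [eval_qf]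
        exact sp s₁
      · show Special s₁ ((qf w t).eval (-p))
        rw [eval_qf, neg_sq]
        exact sp s₁
      · show Special s₁ ((qf w t).eval q)
        rw [eval_qf]
        exact sq s₁
      · show Special s₁ ((qf w t).eval (-q))
        rw [eval_qf, neg_sq]
        exact sq s₁
  -- the upper bound
  have hTB : ∀ a : k, a ∉ TBc (qf w t) L → a = p ∨ a = -p ∨ a = q ∨ a = -q := by
    intro a ha
    obtain ⟨ζ, n, hn, hζ, h3⟩ := not_tbc ha s₁
    rw [eval_qf] at h3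
    rcases hS a ζ n hn hζ h3 with h4 | h4
    · have h5 : w * ((a - p) * (a + p)) = 0 := by linear_combination h4 - v1
      rcases mul_eq_zero.1 ((mul_eq_zero.1 h5).resolve_left h0) with h6 | h6
      · exact Or.inl (sub_eq_zero.1 h6)
      · exact Or.inr (Or.inl (eq_neg_of_add_eq_zero_left h6))
    · have h5 : w * ((a - q) * (a + q)) = 0 := by linear_combination h4 - v2
      rcases mul_eq_zero.1 ((mul_eq_zero.1 h5).resolve_left h0) with h6 | h6
      · exact Or.inr (Or.inr (Or.inl (sub_eq_zero.1 h6)))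
      · exact Or.inr (Or.inr (Or.inr (eq_neg_of_add_eq_zero_left h6)))
  have e1 : KQ.map 2 f (symb (pent (qf w t) (pts p q) 0 1)) =
      zx (qf w t) L p - zx (qf w t) L (-p) := map_pent f hfa 0 1
  have e2 : KQ.map 2 f (symb (pent (qf w t) (pts p q) 2 3)) =
      zx (qf w t) L q - zx (qf w t) L (-q) := map_pent f hfa 2 3
  set e : Fin 2 → KQ L 2 := ![zx (qf w t) L p - zx (qf w t) L (-p),
      zx (qf w t) L q - zx (qf w t) L (-q)] with he
  have hEq : Cls (qf w t) L = Submodule.span ℚ (Set.range e) := by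
    refine le_antisymm ?_ ?_
    · exact cls_le h0 (τ := 2) (σ := -2) (by norm_num) (by norm_num)
        (by rw [v1]; norm_num) (by rw [v2]; norm_num) (by norm_num) hp0 hq0 hTB
    · rw [Submodule.span_le]
      rintro _ ⟨i, rfl⟩
      fin_cases i
      · exact zx_sub_cls (by rw [← e1]; exact hunr 0 1)
      · exact zx_sub_cls (by rw [← e2]; exact hunr 2 3)
  -- the loops
  have hmem : ∀ s : k →+* ℂ, s t = -(s w + (s w)⁻¹) ∧ s p = 1 + (s w)⁻¹ ∧ s q = 1 - (s w)⁻¹ ∧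
      s (-q) = -(1 - (s w)⁻¹) := by
    intro s
    simp [ht, hp, hq]
  obtain ⟨X₀, Z₀, l0, tr0, n0⟩ : ∃ X Z : ℝ → ℂ, LoopOn s₁ w t X Z ∧
      (∀ y, Transcendental ℚ (Z y)) ∧ 0 < dpr s₁ X Z p * dpr s₁ X Z q := by
    obtain ⟨V, Y, h⟩ := exists_half hs1
    obtain ⟨a1, a2, a3, a4⟩ := hmem s₁
    refine exists_loop_tr (s := s₁) (V := V) (Y := Y) ?_ h0 (sp s₁).spc (sq s₁).spc
    rw [a1, a2, a3]
    exact h
  obtain ⟨X₁, Z₁, l1, tr1, n1⟩ : ∃ X Z : ℝ → ℂ, LoopOn s₂ w t X Z ∧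
      (∀ y, Transcendental ℚ (Z y)) ∧ 0 < dpr s₂ X Z p * dpr s₂ X Z (-q) := by
    obtain ⟨V, Y, h⟩ := exists_half' ((map_ne_zero s₂).2 h0) hs2
    obtain ⟨a1, a2, a3, a4⟩ := hmem s₂
    refine exists_loop_tr (s := s₂) (V := V) (Y := Y) ?_ h0 (sp s₂).spc ?_
    · rw [a1, a2, a4]
      exact h
    · rw [neg_sq]
      exact (sq s₂).spc
  rw [dpr_neg, mul_neg, neg_pos] at n1
  obtain ⟨Γ₀, b0, c0, d0⟩ := torusL h0 l0 tr0 (sp s₁).spc (sq s₁).spc L f hfa
  obtain ⟨Γ₁, b1, c1, d1⟩ := torusL h0 l1 tr1 (sp s₂).spc (sq s₂).spc L f hfa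
  have hdet : (Matrix.of fun l j : Fin 2 => (![Γ₀, Γ₁] l).reg (e j)).det ≠ 0 := by
    rw [Matrix.det_fin_two]
    have h3 := det_ne (Or.inr ⟨n0, n1⟩)
    show Γ₀.reg (zx (qf w t) L p - zx (qf w t) L (-p)) *
      Γ₁.reg (zx (qf w t) L q - zx (qf w t) L (-q)) -
      Γ₀.reg (zx (qf w t) L q - zx (qf w t) L (-q)) *
      Γ₁.reg (zx (qf w t) L p - zx (qf w t) L (-p)) ≠ 0
    rw [← e1, ← e2, c0, d0, c1, d1]
    exact h3
  obtain ⟨h3, h4⟩ := bijective_regR ![Γ₀, Γ₁] e hdet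
  rw [hEq]
  exact ⟨h3, ![Γ₀, Γ₁], b0, b1, h4⟩

end gen

end Pool.Agent.Helper537_Nf
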