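import Pool.Agent.Helper537_Nf.Zpart
set_option autoImplicit false

/-!
The condition at infinity for the combinations of the symbols of `z` and of products of linear
functions of `x`.
-/

namespace Pool.Agent.Helper537_Nf

open scoped WithZero
open Polynomial TensorProduct
open Pool.Agent.TH826.MK (KQ symb unitPart Unramified)
open Pool.Agent.TH826.HD
open Pool.Agent.Helper537_Sym
open Pool.Agent.Helper537_All (RF residue_eq_zero exists_extend ru ru_val exists_lg_res)

variable {k : Type*} [Field k] {F : k[X]} {L : Type*} [Field L] [Algebra (PRing F) L]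
  [IsFractionRing (PRing F) L]

theorem v_ePc {v : Valuation L ℤᵐ⁰} (hv : ∀ q : k, q ≠ 0 → v (ec (eP F L) q) = 1) (q : k) :
    v (ec (eP F L) q) ≤ 1 := by
  by_cases h : q = 0
  · rw [h, map_zero, map_zero]
    exact zero_le_one
  · exact (hv q h).le

/-- A functional at infinity. -/
theorem exists_lg_inf {v : Valuation L ℤᵐ⁰} (hv : ∀ q : k, q ≠ 0 → v (ec (eP F L) q) = 1)
    (χ : kˣ → ℚ) (hχ : ∀ a b, χ (a * b) = χ a + χ b) :
    ∃ l : Lg L, (∀ a : Lˣ, v ((a : L) - 1) < 1 → l.toFun a = 0) ∧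
      ∀ a : kˣ, l.toFun (kc (ec (eP F L)) a) = χ a := by
  let kr : k →+* v.valuationSubring :=
    (ec (eP F L)).codRestrict v.valuationSubring.toSubring fun q =>
      (v.mem_valuationSubring_iff _).2 (v_ePc hv q)
  let r : k →+* RF v := (IsLocalRing.residue v.valuationSubring).comp kr
  obtain ⟨ψ, h1, h2⟩ := exists_extend (Units.map (r : k →* RF v))
    (Units.map_injective r.injective) χ hχ
  obtain ⟨l, h3, h4⟩ := exists_lg_res v ψ h1
  refine ⟨l, h3, fun a => ?_⟩
  have h5 : v (kc (ec (eP F L)) a : L) = 1 := hv _ a.ne_zero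
  rw [h4 _ h5, ← h2 a]
  congr 1

/-- Near infinity, a polynomial is its leading term. -/
theorem v_lead {v : Valuation L ℤᵐ⁰} (hv : ∀ q : k, q ≠ 0 → v (ec (eP F L) q) = 1)
    (hx : 1 < v (eP F L X)) {P : k[X]} (hP : P ≠ 0) :
    v (eP F L P - eP F L (C P.leadingCoeff) * eP F L X ^ P.natDegree) <
      v (eP F L X) ^ P.natDegree := by
  have h0 : v (eP F L X) ≠ 0 := ne_of_gt (zero_lt_one.trans hx)
  rw [e_eq_sum P, Finset.sum_range_succ]
  have h1 : P.coeff P.natDegree = P.leadingCoeff := rfl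
  rw [h1, add_sub_cancel_right]
  refine Valuation.map_sum_lt v (pow_ne_zero _ h0) fun i hi => ?_
  rw [map_mul, map_pow]
  calc v (eP F L (C (P.coeff i))) * v (eP F L X) ^ i ≤ 1 * v (eP F L X) ^ i :=
        mul_le_mul_left (vc_le hv _) _
    _ = v (eP F L X) ^ i := one_mul _
    _ < v (eP F L X) ^ P.natDegree := pow_lt_pow_right₀ hx (Finset.mem_range.1 hi)

theorem v_poly {v : Valuation L ℤᵐ⁰} (hv : ∀ q : k, q ≠ 0 → v (ec (eP F L) q) = 1)
    (hx : 1 < v (eP F L X)) {P : k[X]} (hP : P ≠ 0) :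
    v (eP F L P) = v (eP F L X) ^ P.natDegree := by
  have h1 := v_lead hv hx hP
  have h2 : v (eP F L (C P.leadingCoeff) * eP F L X ^ P.natDegree) =
      v (eP F L X) ^ P.natDegree := by
    rw [map_mul, map_pow]
    have := hv _ (leadingCoeff_ne_zero.2 hP)
    rw [show eP F L (C P.leadingCoeff) = ec (eP F L) P.leadingCoeff from rfl, this, one_mul]
  have h3 : eP F L P = (eP F L P - eP F L (C P.leadingCoeff) * eP F L X ^ P.natDegree) +
      eP F L (C P.leadingCoeff) * eP F L X ^ P.natDegree := by ring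
  rw [h3, Valuation.map_add_eq_of_lt_right v (by rw [h2]; exact h1), h2]

/-- The place at infinity with a pole of `z`. -/
theorem exists_inf_gt [CharZero k] (hF : 0 < F.natDegree) : ∃ v : Valuation L ℤᵐ⁰,
    Function.Surjective v ∧
    (∀ q : k, q ≠ 0 → v (ec (eP F L) q) = 1) ∧ 1 < v (eP F L X) ∧ 1 < v (zF F L : L) := by
  obtain ⟨v, hvs, hv, hvm⟩ := exists_val_e (F := F) (L := L) (eP F L X)⁻¹ (Or.inr rfl)
  have hF0 : F ≠ 0 := by
    rintro rfl
    rw [natDegree_zero] at hF
    exact lt_irrefl _ hF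
  have hx0 : v (eP F L X) ≠ 0 := (Valuation.ne_zero_iff v).2 (e_ne eP_inj X_ne_zero)
  have hx : 1 < v (eP F L X) := by
    rw [map_inv₀] at hvm
    exact (inv_lt_one₀ (zero_lt_iff.2 hx0)).1 hvm
  have hne : v (zF F L : L) ≠ 1 := by
    intro hz
    have h1 : 1 < v (eP F L F) := by
      rw [v_poly hv hx hF0]
      exact one_lt_pow₀ hx hF.ne'
    rw [← zF_add_inv] at h1
    have h2 : v ((zF F L : L) + ((zF F L)⁻¹ : Lˣ)) ≤ 1 := by
      refine (v.map_add _ _).trans (max_le hz.le ?_)
      rw [Units.val_inv_eq_inv_val, map_inv₀, hz, inv_one]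
    exact absurd h1 (not_lt.2 h2)
  rcases lt_or_gt_of_ne hne with h | h
  · refine ⟨v.comap (sig F L), ?_, fun q hq => ?_, ?_, ?_⟩
    · intro a
      obtain ⟨y, hy⟩ := hvs a
      refine ⟨sig F L y, ?_⟩
      rw [Valuation.comap_apply, sig_sig, hy]
    · rw [Valuation.comap_apply]
      have h1 : sig F L (ec (eP F L) q) = ec (eP F L) q := sig_eP (C q)
      rw [h1, hv q hq]
    · rw [Valuation.comap_apply, sig_eP]
      exact hx
    · rw [Valuation.comap_apply, sig_z, Units.val_inv_eq_inv_val, map_inv₀]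
      exact (one_lt_inv₀ (zero_lt_iff.2 (v_ne v _))).2 h
  · exact ⟨v, hvs, hv, hx, h⟩

/-- The condition at infinity. -/
theorem inf_step [CharZero k] (hF : 0 < F.natDegree) (hF0 : F.leadingCoeff ≠ 0)
    {m : ℚ ⊗[ℤ] Additive kˣ} {n : k →₀ ℚ}
    (hu : Zt F L m + Finsupp.linearCombination ℚ (zx F L) n ∈ Unramified L 2) :
    m = ((n.sum fun _ r => r) / F.natDegree) •
      ((1 : ℚ) ⊗ₜ[ℤ] Additive.ofMul (Units.mk0 F.leadingCoeff hF0)) := by
  have he := eP_inj (F := F) (L := L)
  have hFn : F ≠ 0 := leadingCoeff_ne_zero.1 hF0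
  obtain ⟨v, hvs, hv, hx, hz⟩ := exists_inf_gt (F := F) (L := L) hF
  set N := F.natDegree with hN
  have hNq : (N : ℚ) ≠ 0 := by exact_mod_cast hF.ne'
  rw [← sub_eq_zero, ← Module.forall_dual_apply_eq_zero_iff ℚ]
  intro φ
  rw [map_sub, map_smul, sub_eq_zero]
  let χ : kˣ → ℚ := fun a => φ ((1 : ℚ) ⊗ₜ[ℤ] Additive.ofMul a)
  have hχ : ∀ a b, χ (a * b) = χ a + χ b := by
    intro a b
    show φ _ = φ _ + φ _
    rw [ofMul_mul, TensorProduct.tmul_add, map_add]
  obtain ⟨l, hl, hlc⟩ := exists_lg_inf hv χ hχ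
  set x : Lˣ := pu (eP F L) X with hxu
  have hxv : (x : L) = eP F L X := pu_val he X_ne_zero
  have hx0 : v (x : L) ≠ 0 := v_ne v x
  have hxgt : 1 < v (x : L) := by rw [hxv]; exact hx
  -- the functional at `x - c`
  have hxc : ∀ c : k, v ((pu (eP F L) (X - C c) : Lˣ) : L) = v (x : L) ∧
      l.toFun (pu (eP F L) (X - C c)) = l.toFun x := by
    intro c
    have h1 : ((pu (eP F L) (X - C c) : Lˣ) : L) = x - ec (eP F L) c := by
      rw [pu_val he (X_sub_C_ne_zero c), map_sub, hxv]
      rfl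
    have h2 : v (ec (eP F L) c) < v (x : L) := (v_ePc hv c).trans_lt hxgt
    have h3 : v ((pu (eP F L) (X - C c) : Lˣ) : L) = v (x : L) := by
      rw [h1]
      exact Valuation.map_sub_eq_of_lt_left v h2
    refine ⟨h3, ?_⟩
    have h4 : l.toFun (pu (eP F L) (X - C c) * x⁻¹) = 0 := by
      apply hl
      have h5 : ((pu (eP F L) (X - C c) * x⁻¹ : Lˣ) : L) - 1 = -(ec (eP F L) c * (x : L)⁻¹) := by
        rw [Units.val_mul, h1, Units.val_inv_eq_inv_val]
        have := x.ne_zero
        field_simp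
        ring
      rw [h5, Valuation.map_neg, map_mul, map_inv₀]
      exact (mul_inv_lt_iff₀ (zero_lt_iff.2 hx0)).2 (by rw [one_mul]; exact h2)
    have h5 : pu (eP F L) (X - C c) = pu (eP F L) (X - C c) * x⁻¹ * x := by
      rw [inv_mul_cancel_right]
    rw [h5, l.map_mul', h4, zero_add]
  -- the functional at `z`
  have hlpow : ∀ (a : Lˣ) (j : ℕ), l.toFun (a ^ j) = j * l.toFun a := by
    intro a j
    induction j with
    | zero =>
      have h1 := l.map_mul' 1 1
      rw [one_mul] at h1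
      have h2 : l.toFun 1 = 0 := by linarith
      rw [pow_zero, h2, Nat.cast_zero, zero_mul]
    | succ j ih =>
      rw [pow_succ, l.map_mul', ih, Nat.cast_succ]
      ring
  set lu : kˣ := Units.mk0 F.leadingCoeff hF0 with hlu
  set y : Lˣ := kc (ec (eP F L)) lu * x ^ N with hy
  have hyv : (y : L) = eP F L (C F.leadingCoeff) * eP F L X ^ N := by
    rw [hy, Units.val_mul, Units.val_pow_eq_pow_val, hxv]
    rfl
  have hvy : v (y : L) = v (x : L) ^ N := by
    have h1 : v (kc (ec (eP F L)) lu : L) = 1 := hv _ lu.ne_zero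
    rw [hy, Units.val_mul, Units.val_pow_eq_pow_val, map_mul, map_pow, h1, one_mul]
  have hzy : v ((zF F L : L) - y) < v (y : L) := by
    have h1 := v_lead hv hx hFn
    have h2 : (zF F L : L) - y = (eP F L F - y) + (-(((zF F L)⁻¹ : Lˣ) : L)) := by
      rw [← zF_add_inv]
      ring
    rw [h2]
    refine Valuation.map_add_lt v ?_ ?_
    · rw [hyv, ← hyv, hvy, hyv, hxv]
      exact h1
    · rw [Valuation.map_neg, Units.val_inv_eq_inv_val, map_inv₀, hvy]
      exact (inv_lt_one_of_one_lt₀ hz).trans (one_lt_pow₀ hxgt hF.ne')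
  have hvz : v (zF F L : L) = v (y : L) := by
    have h1 : (zF F L : L) = ((zF F L : L) - y) + y := by ring
    rw [h1]
    exact Valuation.map_add_eq_of_lt_right v hzy
  have hlz : l.toFun (zF F L) = χ lu + N * l.toFun x := by
    have h1 : l.toFun (zF F L * y⁻¹) = 0 := by
      apply hl
      have h2 : ((zF F L * y⁻¹ : Lˣ) : L) - 1 = ((zF F L : L) - y) * (y : L)⁻¹ := by
        rw [Units.val_mul, Units.val_inv_eq_inv_val]
        have := y.ne_zero
        field_simp
      rw [h2, map_mul, map_inv₀]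
      exact (mul_inv_lt_iff₀ (zero_lt_iff.2 (v_ne v y))).2 (by rw [one_mul]; exact hzy)
    have h2 : zF F L = zF F L * y⁻¹ * y := by rw [inv_mul_cancel_right]
    rw [h2, l.map_mul', h1, zero_add, hy, l.map_mul', hlc, hlpow]
  have hox : (ord v x : ℚ) ≠ 0 := by
    intro h
    have h1 : ord v x = 0 := by exact_mod_cast h
    exact hxgt.ne' (ord_eq_zero h1)
  have hoz : ord v (zF F L) = N * ord v x := by
    rw [ord_congr hvz, ord_congr (show v (y : L) = v ((x ^ N : Lˣ) : L) by
      rw [hvy, Units.val_pow_eq_pow_val, map_pow])]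
    clear_value N
    induction N with
    | zero =>
      rw [pow_zero, Nat.cast_zero, zero_mul]
      exact ord_of_one (by rw [Units.val_one, map_one])
    | succ j ih =>
      rw [pow_succ, ord_mul]
      have : ord v (x ^ j) = j * ord v x := by
        clear * - 
        induction j with
        | zero =>
          rw [pow_zero, Nat.cast_zero, zero_mul]
          exact ord_of_one (by rw [Units.val_one, map_one])
        | succ j ih =>
          rw [pow_succ, ord_mul, ih]
          push_cast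
          ring
      rw [this]
      push_cast
      ring
  have t1 : ∀ c : k, tame v l hl (zx F L c) = (ord v x : ℚ) * χ lu := by
    intro c
    obtain ⟨h1, h2⟩ := hxc c
    unfold zx
    rw [tame_sy, h2, ord_congr h1, hlz, hoz]
    push_cast
    ring
  have t2 : ∀ m : ℚ ⊗[ℤ] Additive kˣ, tame v l hl (Zt F L m) = -((N : ℚ) * ord v x) * φ m := by
    intro m
    induction m using TensorProduct.induction_on with
    | zero => rw [map_zero, map_zero, map_zero, mul_zero]
    | tmul r a =>
      have h5 := zt_tmul (F := F) (L := L) r a.toMul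
      rw [ofMul_toMul] at h5
      have h6 : (r ⊗ₜ[ℤ] a : ℚ ⊗[ℤ] Additive kˣ) = r • ((1 : ℚ) ⊗ₜ[ℤ] a) := by
        rw [TensorProduct.smul_tmul', smul_eq_mul, mul_one]
      rw [h5, map_smul, tame_sy, hlc, ord_of_one (hv _ a.toMul.ne_zero :
        v (kc (ec (eP F L)) a.toMul : L) = 1), hoz, h6, map_smul]
      show r * (_ - _ * φ ((1 : ℚ) ⊗ₜ[ℤ] Additive.ofMul a.toMul)) = _
      rw [ofMul_toMul, smul_eq_mul]
      push_cast
      ring
    | add x y hx hy => rw [map_add, map_add, hx, hy, map_add, mul_add]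
  have e1 := tame_unramified hvs l hl hu
  rw [map_add, t2, Finsupp.linearCombination_apply, Finsupp.sum, map_sum,
    Finset.sum_congr rfl (fun c _ => by rw [map_smul, t1 c, smul_eq_mul] :
      ∀ c ∈ n.support, tame v l hl (n c • zx F L c) = n c * ((ord v x : ℚ) * χ lu)),
    ← Finset.sum_mul] at e1
  have e2 : (ord v x : ℚ) * ((n.sum fun _ r => r) * χ lu - N * φ m) = 0 := by
    rw [Finsupp.sum]
    linear_combination e1
  have e3 := (mul_eq_zero.1 e2).resolve_left hox
  rw [smul_eq_mul]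
  show φ m = _ / (N : ℚ) * χ lu
  field_simp
  linear_combination -e3

end Pool.Agent.Helper537_Nf
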