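import Mathlib
set_option autoImplicit false

/-!
Some equations in integers.
-/

namespace Pool.Agent.Helper537_Nf

/-- The possible values of `t² - 2 n`. -/
def Exc (D : ℤ) : Prop := D = 2 ∨ D = -2 ∨ D = -1 ∨ D = 7 ∨ D = 3

/-- `a b = c` with small `c`: finitely many cases. -/
theorem factor_le {a b c : ℤ} (h : a * b = c) (hc : c ≠ 0) : |a| ≤ |c| ∧ |b| ≤ |c| := by
  have ha : a ≠ 0 := by rintro rfl; exact hc (by rw [← h, zero_mul])
  have hb : b ≠ 0 := by rintro rfl; exact hc (by rw [← h, mul_zero])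
  have h1 : |a| * |b| = |c| := by rw [← abs_mul, h]
  have h2 := Int.one_le_abs ha
  have h3 := Int.one_le_abs hb
  constructor <;> nlinarith

theorem lem0 {t n m k : ℤ} (hn : n = 1 ∨ n = -1) (hm : m ^ 2 = t ^ 2 + 2 - 2 * n)
    (hk : k ^ 2 = t ^ 2 - 2 * n + 2 + 2 * m) : Exc (t ^ 2 - 2 * n) := by
  unfold Exc
  rcases hn with rfl | rfl
  · have h1 : (m - t) * (m + t) = 0 := by linear_combination hm
    rcases mul_eq_zero.1 h1 with h2 | h2
    · have e : m = t := by linarith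
      subst e
      have h3 : (m + 1 - k) * (m + 1 + k) = 1 := by linear_combination -hk
      obtain ⟨h4, h5⟩ := factor_le h3 one_ne_zero
      rw [abs_one, abs_le] at h4 h5
      have h6 : -2 ≤ m := by linarith [h4.1, h5.1]
      have h7 : m ≤ 0 := by linarith [h4.2, h5.2]
      clear h1 h2 h3 h4 h5 hm hk
      interval_cases m <;> norm_num
    · have e : m = -t := by linarith
      subst e
      have h3 : (t - 1 - k) * (t - 1 + k) = 1 := by linear_combination -hk
      obtain ⟨h4, h5⟩ := factor_le h3 one_ne_zero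
      rw [abs_one, abs_le] at h4 h5
      have h6 : 0 ≤ t := by linarith [h4.1, h5.1]
      have h7 : t ≤ 2 := by linarith [h4.2, h5.2]
      clear h1 h2 h3 h4 h5 hm hk
      interval_cases t <;> norm_num
  · have h1 : (m - t) * (m + t) = 4 := by linear_combination hm
    obtain ⟨h4, h5⟩ := factor_le h1 (by norm_num)
    rw [abs_of_pos (by norm_num : (0 : ℤ) < 4), abs_le] at h4 h5
    have h6 : -4 ≤ t := by linarith [h4.2, h5.1]
    have h7 : t ≤ 4 := by linarith [h4.1, h5.2]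
    have h8 : -4 ≤ m := by linarith [h4.1, h5.1]
    have h9 : m ≤ 4 := by linarith [h4.2, h5.2]
    clear h4 h5 hk h1
    interval_cases t <;> first | (exfalso; interval_cases m <;> norm_num at hm; done) | (norm_num; done)

theorem lem1 {t n m k ε : ℤ} (hε : ε = 1 ∨ ε = -1) (hn : n = 1 ∨ n = -1)
    (hm : m ^ 2 = t ^ 2 + 2 - n + ε * (n + 1) * t)
    (hk : k ^ 2 = t ^ 2 - 2 * n + ε * t + 2 + 2 * m) : Exc (t ^ 2 - 2 * n) := by
  unfold Exc
  -- replace `t` by `T = ε t`
  obtain ⟨T, hT, hT2⟩ : ∃ T : ℤ, T = ε * t ∧ T ^ 2 = t ^ 2 := by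
    refine ⟨ε * t, rfl, ?_⟩
    rcases hε with rfl | rfl <;> ring
  have hm' : m ^ 2 = T ^ 2 + 2 - n + (n + 1) * T := by rw [hm, hT2, hT]; ring
  have hk' : k ^ 2 = T ^ 2 - 2 * n + T + 2 + 2 * m := by rw [hk, hT2, hT]
  rw [← hT2]
  clear hm hk hT hT2
  rcases hn with rfl | rfl
  · have h1 : (m - (T + 1)) * (m + (T + 1)) = 0 := by linear_combination hm'
    rcases mul_eq_zero.1 h1 with h2 | h2
    · have e : m = T + 1 := by linarith
      subst e
      -- `k² = (T+1)(T+2)`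
      have h3 : (2 * T + 3 - 2 * k) * (2 * T + 3 + 2 * k) = 1 := by linear_combination -4 * hk'
      obtain ⟨h4, h5⟩ := factor_le h3 one_ne_zero
      rw [abs_one, abs_le] at h4 h5
      have h6 : -2 ≤ T := by linarith [h4.1, h5.1]
      have h7 : T ≤ -1 := by linarith [h4.2, h5.2]
      interval_cases T <;> norm_num
    · have e : m = -(T + 1) := by linarith
      subst e
      -- `k² = (T+1)(T-2)`
      have h3 : (2 * T - 1 - 2 * k) * (2 * T - 1 + 2 * k) = 9 := by linear_combination -4 * hk'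
      obtain ⟨h4, h5⟩ := factor_le h3 (by norm_num)
      rw [abs_of_pos (by norm_num : (0 : ℤ) < 9), abs_le] at h4 h5
      have h6 : -4 ≤ T := by linarith [h4.1, h5.1]
      have h7 : T ≤ 5 := by linarith [h4.2, h5.2]
      have h8 : -9 ≤ k := by linarith [h4.2, h5.1]
      have h9 : k ≤ 9 := by linarith [h4.1, h5.2]
      clear h1 h2 h4 h5 hm' hk'
      interval_cases T <;> first | (exfalso; interval_cases k <;> norm_num at h3; done) | (norm_num; done)
  · have h1 : (m - T) * (m + T) = 3 := by linear_combination hm'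
    obtain ⟨h4, h5⟩ := factor_le h1 (by norm_num)
    rw [abs_of_pos (by norm_num : (0 : ℤ) < 3), abs_le] at h4 h5
    have h6 : -3 ≤ T := by linarith [h4.2, h5.1]
    have h7 : T ≤ 3 := by linarith [h4.1, h5.2]
    have h8 : -3 ≤ m := by linarith [h4.1, h5.1]
    have h9 : m ≤ 3 := by linarith [h4.2, h5.2]
    clear h4 h5 hm' hk'
    interval_cases T <;> first | (exfalso; interval_cases m <;> norm_num at h1; done) | (norm_num; done)

theorem lem2 {t n m S : ℤ} (hn : n = 1 ∨ n = -1) (hS : S ^ 2 = 2 * (t ^ 2 - 4 * n))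
    (hm : m ^ 2 = t ^ 2 + 2 - 4 * n + (1 - n) * S) : Exc (t ^ 2 - 2 * n) := by
  exfalso
  rcases hn with rfl | rfl
  · have h1 : m ^ 2 = t ^ 2 - 2 := by linarith
    have h2 : m ^ 2 % 4 = 0 ∨ m ^ 2 % 4 = 1 := by
      rcases Int.emod_two_eq_zero_or_one m with h | h
      · left
        obtain ⟨a, ha⟩ : ∃ a, m = 2 * a := ⟨m / 2, by omega⟩
        subst ha
        ring_nf
        omega
      · right
        obtain ⟨a, ha⟩ : ∃ a, m = 2 * a + 1 := ⟨m / 2, by omega⟩
        subst ha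
        ring_nf
        omega
    have h3 : t ^ 2 % 4 = 0 ∨ t ^ 2 % 4 = 1 := by
      rcases Int.emod_two_eq_zero_or_one t with h | h
      · left
        obtain ⟨a, ha⟩ : ∃ a, t = 2 * a := ⟨t / 2, by omega⟩
        subst ha
        ring_nf
        omega
      · right
        obtain ⟨a, ha⟩ : ∃ a, t = 2 * a + 1 := ⟨t / 2, by omega⟩
        subst ha
        ring_nf
        omega
    omega
  · have hSe : ∃ S₁, S = 2 * S₁ := by
      rcases Int.emod_two_eq_zero_or_one S with h | h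
      · exact ⟨S / 2, by omega⟩
      · exfalso
        obtain ⟨a, ha⟩ : ∃ a, S = 2 * a + 1 := ⟨S / 2, by omega⟩
        subst ha
        ring_nf at hS
        omega
    obtain ⟨S₁, rfl⟩ := hSe
    have h1 : t ^ 2 = 2 * S₁ ^ 2 - 4 := by linarith [hS, (by ring : (2 * S₁) ^ 2 = 4 * S₁ ^ 2)]
    have hte : ∃ t₁, t = 2 * t₁ := by
      rcases Int.emod_two_eq_zero_or_one t with h | h
      · exact ⟨t / 2, by omega⟩
      · exfalso
        obtain ⟨a, ha⟩ : ∃ a, t = 2 * a + 1 := ⟨t / 2, by omega⟩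
        subst ha
        ring_nf at h1
        omega
    obtain ⟨t₁, rfl⟩ := hte
    have h2 : S₁ ^ 2 = 2 * t₁ ^ 2 + 2 := by linarith [h1, (by ring : (2 * t₁) ^ 2 = 4 * t₁ ^ 2)]
    have hSe : ∃ S₂, S₁ = 2 * S₂ := by
      rcases Int.emod_two_eq_zero_or_one S₁ with h | h
      · exact ⟨S₁ / 2, by omega⟩
      · exfalso
        obtain ⟨a, ha⟩ : ∃ a, S₁ = 2 * a + 1 := ⟨S₁ / 2, by omega⟩
        subst ha
        ring_nf at h2
        omega
    obtain ⟨S₂, rfl⟩ := hSe
    have h3 : m ^ 2 = 4 * t₁ ^ 2 + 6 + 8 * S₂ := by linarith [hm, (by ring : (2 * t₁) ^ 2 = 4 * t₁ ^ 2)]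
    rcases Int.emod_two_eq_zero_or_one m with h | h
    · obtain ⟨a, ha⟩ : ∃ a, m = 2 * a := ⟨m / 2, by omega⟩
      subst ha
      ring_nf at h3
      omega
    · obtain ⟨a, ha⟩ : ∃ a, m = 2 * a + 1 := ⟨m / 2, by omega⟩
      subst ha
      ring_nf at h3
      omega

theorem lem3 {t n m S : ℤ} (hn : n = 1 ∨ n = -1) (hS : S ^ 2 = 3 * (t ^ 2 - 4 * n))
    (hm : m ^ 2 = t ^ 2 + 2 - 5 * n + (1 - n) * S) : Exc (t ^ 2 - 2 * n) := by
  unfold Exc
  rcases hn with rfl | rfl
  · have h1 : (t - m) * (t + m) = 3 := by linear_combination -hm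
    obtain ⟨h4, h5⟩ := factor_le h1 (by norm_num)
    rw [abs_of_pos (by norm_num : (0 : ℤ) < 3), abs_le] at h4 h5
    have h6 : -3 ≤ t := by linarith [h4.1, h5.1]
    have h7 : t ≤ 3 := by linarith [h4.2, h5.2]
    have h8 : -3 ≤ m := by linarith [h4.2, h5.1]
    have h9 : m ≤ 3 := by linarith [h4.1, h5.2]
    clear h4 h5 hm hS
    interval_cases t <;> first | (exfalso; interval_cases m <;> norm_num at h1; done) | (norm_num; done)
  · exfalso
    -- `t² + 4` is three times a square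
    have h3 : (3 : ℤ) ∣ S := by
      have h4 : (3 : ℤ) ∣ S ^ 2 := ⟨_, hS⟩
      exact Int.prime_three.dvd_of_dvd_pow h4
    obtain ⟨S₁, rfl⟩ := h3
    have h4 : t ^ 2 = 3 * S₁ ^ 2 - 4 := by linarith [hS, (by ring : (3 * S₁) ^ 2 = 9 * S₁ ^ 2)]
    have h5 : t % 3 = 0 ∨ t % 3 = 1 ∨ t % 3 = 2 := by omega
    rcases h5 with h | h | h
    · obtain ⟨a, ha⟩ : ∃ a, t = 3 * a := ⟨t / 3, by omega⟩
      subst ha
      ring_nf at h4
      omega
    · obtain ⟨a, ha⟩ : ∃ a, t = 3 * a + 1 := ⟨t / 3, by omega⟩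
      subst ha
      ring_nf at h4
      omega
    · obtain ⟨a, ha⟩ : ∃ a, t = 3 * a + 2 := ⟨t / 3, by omega⟩
      subst ha
      ring_nf at h4
      omega

theorem lem5 {t n m ε S S' : ℤ} (hε : ε = 1 ∨ ε = -1) (hn : n = 1 ∨ n = -1)
    (hSS : S + S' = ε * t) (hU : (S - S') ^ 2 = 5 * (t ^ 2 - 4 * n))
    (hm : m ^ 2 = t ^ 2 + 2 - 3 * n + n * S' + S) : Exc (t ^ 2 - 2 * n) := by
  unfold Exc
  rcases hn with rfl | rfl
  · have h1 : m ^ 2 = t ^ 2 - 1 + ε * t := by linarith
    have h2 : (2 * t + ε - 2 * m) * (2 * t + ε + 2 * m) = 5 := by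
      have hε2 : ε ^ 2 = 1 := by rcases hε with rfl | rfl <;> norm_num
      linear_combination -4 * h1 + hε2
    obtain ⟨h4, h5⟩ := factor_le h2 (by norm_num)
    rw [abs_of_pos (by norm_num : (0 : ℤ) < 5), abs_le] at h4 h5
    have h6 : -3 ≤ t := by rcases hε with rfl | rfl <;> linarith [h4.1, h5.1]
    have h7 : t ≤ 3 := by rcases hε with rfl | rfl <;> linarith [h4.2, h5.2]
    have h8 : -3 ≤ m := by linarith [h4.2, h5.1]
    have h9 : m ≤ 3 := by linarith [h4.1, h5.2]
    clear h4 h5 hm hU hSS h1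
    rcases hε with rfl | rfl <;> interval_cases t <;>
      first | (exfalso; interval_cases m <;> norm_num at h2; done) | (norm_num; done)
  · obtain ⟨U, hUe⟩ : ∃ U, U = S - S' := ⟨_, rfl⟩
    rw [← hUe] at hU
    have h5 : (5 : ℤ) ∣ U := by
      have h4 : (5 : ℤ) ∣ U ^ 2 := ⟨_, hU⟩
      exact (by norm_num : Prime (5 : ℤ)).dvd_of_dvd_pow h4
    obtain ⟨B, rfl⟩ := h5
    have h6 : t ^ 2 = 5 * B ^ 2 - 4 := by linarith [hU, (by ring : (5 * B) ^ 2 = 25 * B ^ 2)]
    have h7 : m ^ 2 = 5 * B ^ 2 + 5 * B + 1 := by linarith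
    -- it remains to show `B² = 1`
    have hB : B ^ 2 = 1 → t ^ 2 - 2 * -1 = 3 := by
      intro h
      linarith
    right; right; right; right
    apply hB
    by_contra hne
    have hB0 : B ≠ 0 := by
      rintro rfl
      nlinarith [sq_nonneg t]
    obtain ⟨a, ha0, ha⟩ : ∃ a : ℤ, 0 ≤ a ∧ a ^ 2 = t ^ 2 := ⟨|t|, abs_nonneg t, sq_abs t⟩
    obtain ⟨c, hc0, hc⟩ : ∃ c : ℤ, 0 ≤ c ∧ c ^ 2 = m ^ 2 := ⟨|m|, abs_nonneg m, sq_abs m⟩
    rw [← ha] at h6
    rw [← hc] at h7
    have hBB : 2 ≤ |B| := by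
      by_contra h
      push Not at h
      have h8 : |B| = 1 := le_antisymm (by linarith) (Int.one_le_abs hB0)
      apply hne
      rw [← sq_abs, h8]
      norm_num
    -- `r = c - a`
    obtain ⟨r, hr⟩ : ∃ r : ℤ, c = a + r := ⟨c - a, by ring⟩
    subst hr
    have h8 : 2 * a * r + r ^ 2 = 5 + 5 * B := by linear_combination h7 - h6
    have haB : B ^ 2 ≤ a ^ 2 := by nlinarith [sq_abs B]
    have haB' : |B| ≤ a := abs_le_of_sq_le_sq haB ha0
    rcases lt_trichotomy r 0 with hr | hr | hr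
    · -- `r < 0`: `B < 0`
      have hBneg : B < 0 := by
        by_contra hcon
        push Not at hcon
        have h9 : 0 ≤ (a + r) * 1 := by linarith
        nlinarith
      have hBa : |B| = -B := abs_of_neg hBneg
      rw [hBa] at hBB haB'
      rcases (by omega : r = -1 ∨ r = -2 ∨ r ≤ -3) with rfl | rfl | hr3
      · -- `2 a = -4 - 5 B`
        have h9 : 2 * a = -4 - 5 * B := by linarith
        have h10 : (2 * a) ^ 2 = 20 * B ^ 2 - 16 := by linear_combination 4 * h6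
        rw [h9] at h10
        -- `5 B² + 40 B + 32 = 0`
        have h11 : 5 * B ^ 2 + 40 * B + 32 = 0 := by linarith [h10, (by ring : (-4 - 5 * B) ^ 2 = 16 + 40 * B + 25 * B ^ 2)]
        have h12 : (5 : ℤ) ∣ 32 := ⟨-(B ^ 2 + 8 * B), by linarith⟩
        norm_num at h12
      · have h9 : 4 * a = -1 - 5 * B := by linarith
        have h10 : (4 * a) ^ 2 = 80 * B ^ 2 - 64 := by linear_combination 16 * h6
        rw [h9] at h10
        have h11 : 55 * B ^ 2 - 10 * B - 65 = 0 := by linarith [h10, (by ring : (-1 - 5 * B) ^ 2 = 1 + 10 * B + 25 * B ^ 2)]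
        nlinarith
      · nlinarith
    · subst hr
      have : B = -1 := by linarith
      rw [this] at hBB
      norm_num at hBB
    · -- `r > 0`: `B ≥ 0`
      have hBpos : 0 < B := by
        by_contra hcon
        push Not at hcon
        have h9 : B ≤ -2 := by
          rw [abs_of_nonpos hcon] at hBB
          linarith
        nlinarith
      have hBa : |B| = B := abs_of_pos hBpos
      rw [hBa] at hBB haB'
      rcases (by omega : r = 1 ∨ r = 2 ∨ 3 ≤ r) with rfl | rfl | hr3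
      · have h9 : 2 * a = 4 + 5 * B := by linarith
        have h10 : (2 * a) ^ 2 = 20 * B ^ 2 - 16 := by linear_combination 4 * h6
        rw [h9] at h10
        have h11 : 5 * B ^ 2 + 40 * B + 32 = 0 := by linarith [h10, (by ring : (4 + 5 * B) ^ 2 = 16 + 40 * B + 25 * B ^ 2)]
        nlinarith
      · have h9 : 4 * a = 1 + 5 * B := by linarith
        have h10 : (4 * a) ^ 2 = 80 * B ^ 2 - 64 := by linear_combination 16 * h6
        rw [h9] at h10
        have h11 : 55 * B ^ 2 - 10 * B - 65 = 0 := by linarith [h10, (by ring : (1 + 5 * B) ^ 2 = 1 + 10 * B + 25 * B ^ 2)]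
        nlinarith
      · have h9 : 0 ≤ 2 * (a * (r - 3)) := by
          have := mul_nonneg ha0 (by linarith : (0 : ℤ) ≤ r - 3)
          linarith
        have h10 : 0 ≤ (r - 3) * (r + 3) := mul_nonneg (by linarith) (by linarith)
        have h11 : 2 * a * r + r ^ 2 = 2 * (a * (r - 3)) + (r - 3) * (r + 3) + 6 * a + 9 := by ring
        linarith

theorem cases19 {a b : ℤ} (c1 : 0 ≤ a ^ 2 - 4 * b) (c2 : 0 ≤ 4 - 2 * a + b) (c3 : 0 ≤ 4 + 2 * a + b)
    (c4 : a ≤ 4) (c5 : -4 ≤ a) :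
    (∃ u v : ℤ, u + v = a ∧ u * v = b ∧ (u = 0 ∨ u = 1 ∨ u = -1 ∨ u = 2 ∨ u = -2) ∧
      (v = 0 ∨ v = 1 ∨ v = -1 ∨ v = 2 ∨ v = -2)) ∨
    (a = 0 ∧ b = -2) ∨ (a = 0 ∧ b = -3) ∨ ((a = 1 ∨ a = -1) ∧ b = -1) := by
  have c6 : b ≤ 4 := by nlinarith
  have c7 : -4 ≤ b := by omega
  have key : ∀ u v : ℤ, u + v = a → u * v = b →
      (u = 0 ∨ u = 1 ∨ u = -1 ∨ u = 2 ∨ u = -2) → (v = 0 ∨ v = 1 ∨ v = -1 ∨ v = 2 ∨ v = -2) →
      (∃ u v : ℤ, u + v = a ∧ u * v = b ∧ (u = 0 ∨ u = 1 ∨ u = -1 ∨ u = 2 ∨ u = -2) ∧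
      (v = 0 ∨ v = 1 ∨ v = -1 ∨ v = 2 ∨ v = -2)) ∨
      (a = 0 ∧ b = -2) ∨ (a = 0 ∧ b = -3) ∨ ((a = 1 ∨ a = -1) ∧ b = -1) :=
    fun u v h1 h2 h3 h4 => Or.inl ⟨u, v, h1, h2, h3, h4⟩
  interval_cases a
  · have : b = 4 := by omega
    exact key (-2) (-2) (by norm_num) (by omega) (by norm_num) (by norm_num)
  · have : b = 2 := by omega
    exact key (-1) (-2) (by norm_num) (by omega) (by norm_num) (by norm_num)
  · rcases (by omega : b = 0 ∨ b = 1) with h | h
    · exact key (-2) 0 (by norm_num) (by omega) (by norm_num) (by norm_num)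
    · exact key (-1) (-1) (by norm_num) (by omega) (by norm_num) (by norm_num)
  · rcases (by omega : b = -2 ∨ b = -1 ∨ b = 0) with h | h | h
    · exact key 1 (-2) (by norm_num) (by omega) (by norm_num) (by norm_num)
    · right; right; right
      exact ⟨Or.inr rfl, h⟩
    · exact key (-1) 0 (by norm_num) (by omega) (by norm_num) (by norm_num)
  · rcases (by omega : b = -4 ∨ b = -3 ∨ b = -2 ∨ b = -1 ∨ b = 0) with h | h | h | h | h
    · exact key 2 (-2) (by norm_num) (by omega) (by norm_num) (by norm_num)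
    · right; right; left
      exact ⟨rfl, h⟩
    · right; left
      exact ⟨rfl, h⟩
    · exact key 1 (-1) (by norm_num) (by omega) (by norm_num) (by norm_num)
    · exact key 0 0 (by norm_num) (by omega) (by norm_num) (by norm_num)
  · rcases (by omega : b = -2 ∨ b = -1 ∨ b = 0) with h | h | h
    · exact key 2 (-1) (by norm_num) (by omega) (by norm_num) (by norm_num)
    · right; right; right
      exact ⟨Or.inl rfl, h⟩
    · exact key 1 0 (by norm_num) (by omega) (by norm_num) (by norm_num)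
  · rcases (by omega : b = 0 ∨ b = 1) with h | h
    · exact key 2 0 (by norm_num) (by omega) (by norm_num) (by norm_num)
    · exact key 1 1 (by norm_num) (by omega) (by norm_num) (by norm_num)
  · have : b = 2 := by omega
    exact key 1 2 (by norm_num) (by omega) (by norm_num) (by norm_num)
  · have : b = 4 := by omega
    exact key 2 2 (by norm_num) (by omega) (by norm_num) (by norm_num)

end Pool.Agent.Helper537_Nf
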