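import Pool.Agent.Helper537_Sym.Generic
import Pool.Agent.Y775.UN.Loop
set_option autoImplicit false

/-!
Points of the curve `z + 1/z = F(x)` over a number field with `|z|` transcendental, and loops in the
spectrum of the function field.
-/

namespace Pool.Agent.Helper537_Nf

open Polynomial MeasureTheory

open Pool.Agent.TH826.MK (Torus KQ symb pairing circ norm_circ contDiff_circ circ_add_one)

open Pool.Agent.TH826.HD

open Pool.Agent.TH826.UH

open Pool.Agent.TH690.UR (wn)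

open Pool.Agent.TH690.UE

open Pool.Agent.Y775.UN

open Pool.Agent.Helper537_Sym (el nm exists_el el_conj el_eq_zero transcendental_of_norm lift_congr)

open scoped Real ComplexConjugate

theorem exists_radius_btw {R₀ : ℝ} (h : 1 < R₀) :
    ∃ R : ℝ, 1 < R ∧ R < R₀ ∧ Transcendental ℚ R := by
  have hd : Dense {x : ℝ | IsAlgebraic ℚ x}ᶜ := (Algebraic.countable ℚ ℝ).dense_compl ℝ
  obtain ⟨R, hR, h3, h4⟩ := hd.exists_between h
  exact ⟨R, h3, h4, hR⟩

section point

variable {k : Type*} [Field k] [NumberField k] {s : k →+* ℂ}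

/-- `x` is integral over `k`, embedded by `s`. -/
def IntS (s : k →+* ℂ) (x : ℂ) : Prop := s.IsIntegralElem x

theorem intS_tr {x : ℂ} (h : IntS s x) : IsIntegral ℚ x := by
  let _ : Algebra k ℂ := s.toAlgebra
  have hx : IsIntegral k x := h
  have : IsScalarTower ℚ k ℂ := IsScalarTower.of_algebraMap_eq' (Subsingleton.elim _ _)
  exact isIntegral_trans x hx

theorem intS_z {F : k[X]} {x z : ℂ} (h : z ^ 2 - F.eval₂ s x * z + 1 = 0) (hx : IntS s x) :
    IntS s z := by
  let _ : Algebra k ℂ := s.toAlgebra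
  have h1 : IsIntegral k x := hx
  have h2 : F.eval₂ s x = aeval x F := rfl
  have h3 : IsIntegral k (aeval x F) := by
    have h4 : aeval x F = ((aeval (⟨x, h1⟩ : integralClosure k ℂ) F : integralClosure k ℂ) : ℂ) :=
      Subalgebra.aeval_coe (integralClosure k ℂ) (⟨x, h1⟩ : integralClosure k ℂ) F
    rw [h4]
    exact (aeval (⟨x, h1⟩ : integralClosure k ℂ) F).2
  have h5 : IsIntegral (integralClosure k ℂ) z := by
    refine ⟨X ^ 2 - C (⟨aeval x F, h3⟩ : integralClosure k ℂ) * X + 1, ?_, ?_⟩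
    · monicity!
    · simp only [eval₂_add, eval₂_sub, eval₂_mul, eval₂_X, eval₂_C, eval₂_one, eval₂_X_pow]
      rw [h2] at h
      exact h
  exact isIntegral_trans z h5

theorem evB_inj {F : k[X]} (hF : 0 < F.natDegree) {n : ℕ} {b : Fin n → k} {x z : ℂ}
    (h : PtS s F b x z) (hz : Transcendental ℚ z) : Function.Injective h.evB := by
  have hd := isDomain_PRing hF
  rw [injective_iff_map_eq_zero]
  intro r hr
  obtain ⟨P, Q, rfl⟩ := exists_el r
  have h1 : h.evB (ppol F (nm F P Q)) = 0 := by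
    rw [← el_conj, map_mul, hr, zero_mul]
  rw [h.evB_ppol] at h1
  have h2 : nm F P Q = 0 := by
    by_contra hne
    apply hz
    refine (intS_tr (intS_z h.eq ?_)).isAlgebraic
    let _ : Algebra k ℂ := s.toAlgebra
    have h4 : IsAlgebraic k x := ⟨nm F P Q, hne, h1⟩
    exact h4.isIntegral
  have h3 := el_conj (F := F) P Q
  rw [h2, map_zero, mul_eq_zero] at h3
  rcases h3 with h3 | h3
  · exact h3
  · obtain ⟨h4, h5⟩ := el_eq_zero h3
    have h6 : Q = 0 := neg_eq_zero.1 h5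
    rw [h6, zero_mul, add_zero] at h4
    rw [h4, h6]
    unfold el
    rw [map_zero, zero_mul, add_zero]

end point

section field

variable {k : Type*} [Field k] {s : k →+* ℂ} {F : k[X]} {n : ℕ} {b : Fin n → k}

theorem contDiff_evB {d : ℕ} {X Z : (Fin d → ℝ) → ℂ}
    (hX : ContDiff ℝ 2 X) (hZ : ContDiff ℝ 2 Z) (hP : ∀ θ, PtS s F b (X θ) (Z θ))
    (r : PRing F) : ContDiff ℝ 2 fun θ => (hP θ).evB r := by
  have h := contDiff_evA hX hZ hP (toP F b r)
  simp only [PtS.evA_toP] at h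
  exact h

variable {L : Type*} [Field L] [Algebra (PRing F) L] [IsFractionRing (PRing F) L]

theorem lift_congr' {g g' : PRing F →+* ℂ} (h : g = g') (hg : Function.Injective g)
    (hg' : Function.Injective g') :
    (IsFractionRing.lift (K := L) hg : L →+* ℂ) = IsFractionRing.lift hg' := by
  subst h
  rfl

/-- A loop in the spectrum of the function field. -/
noncomputable def mkL (L : Type*) [Field L] [Algebra (PRing F) L] [IsFractionRing (PRing F) L]
    {X Z : ℝ → ℂ} (hX : ContDiff ℝ 2 X) (hZ : ContDiff ℝ 2 Z)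
    (hX1 : ∀ t, X (t + 1) = X t) (hZ1 : ∀ t, Z (t + 1) = Z t)
    (hP : ∀ t, PtS s F b (X t) (Z t)) (hi : ∀ t, Function.Injective (hP t).evB) :
    Torus L 1 where
  e θ := IsFractionRing.lift (hi (θ 0))
  smooth h := by
    have hX' : ContDiff ℝ 2 fun θ : Fin 1 → ℝ => X (θ 0) := hX.comp (contDiff_apply ℝ ℝ 0)
    have hZ' : ContDiff ℝ 2 fun θ : Fin 1 → ℝ => Z (θ 0) := hZ.comp (contDiff_apply ℝ ℝ 0)
    obtain ⟨a, c, hc, rfl⟩ := IsFractionRing.div_surjective (PRing F) h
    have hnt : Nontrivial (PRing F) := (algebraMap (PRing F) L).domain_nontrivial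
    have hc0 : c ≠ 0 := nonZeroDivisors.ne_zero hc
    have e : (fun θ : Fin 1 → ℝ => (IsFractionRing.lift (hi (θ 0)) : L →+* ℂ)
        (algebraMap (PRing F) L a / algebraMap (PRing F) L c)) =
        fun θ => (hP (θ 0)).evB a * ((hP (θ 0)).evB c)⁻¹ := by
      funext θ
      rw [map_div₀, IsFractionRing.lift_algebraMap, IsFractionRing.lift_algebraMap,
        div_eq_mul_inv]
    rw [e]
    refine (contDiff_evB hX' hZ' (fun θ => hP (θ 0)) a).mul
      ((contDiff_evB hX' hZ' (fun θ => hP (θ 0)) c).inv fun θ => ?_)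
    intro h0
    exact hc0 ((injective_iff_map_eq_zero _).1 (hi (θ 0)) c h0)
  periodic θ i := by
    have h0 : (θ + Pi.single i 1 : Fin 1 → ℝ) 0 = θ 0 + 1 := by
      rw [Pi.add_apply, Subsingleton.elim i 0, Pi.single_eq_same]
    refine lift_congr' ?_ _ _
    have key : ∀ t t' : ℝ, X t = X t' → Z t = Z t' → (hP t).evB = (hP t').evB := by
      intro t t' h1 h2
      have : ∀ (x x' z z' : ℂ) (h : PtS s F b x z) (h' : PtS s F b x' z'), x = x' → z = z' →
          h.evB = h'.evB := by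
        intro x x' z z' h h' e1 e2
        subst e1 e2
        rfl
      exact this _ _ _ _ (hP t) (hP t') h1 h2
    refine key _ _ ?_ ?_
    · rw [h0, hX1]
    · rw [h0, hZ1]

theorem mkL_e {X Z : ℝ → ℂ} (hX : ContDiff ℝ 2 X) (hZ : ContDiff ℝ 2 Z)
    (hX1 : ∀ t, X (t + 1) = X t) (hZ1 : ∀ t, Z (t + 1) = Z t)
    (hP : ∀ t, PtS s F b (X t) (Z t)) (hi : ∀ t, Function.Injective (hP t).evB)
    (θ : Fin 1 → ℝ) (r : PRing F) :
    (mkL L hX hZ hX1 hZ1 hP hi).e θ (algebraMap (PRing F) L r) = (hP (θ 0)).evB r :=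
  IsFractionRing.lift_algebraMap (hi (θ 0)) r

/-- The regulator of the symbol `{z, (x - b_m) / (x - b_l)}` on a loop `(X, Z)`. -/
theorem mkL_reg {X Z : ℝ → ℂ} (hX : ContDiff ℝ 2 X) (hZ : NZ Z)
    (hX1 : ∀ t, X (t + 1) = X t) (hZ1 : ∀ t, Z (t + 1) = Z t)
    (hP : ∀ t, PtS s F b (X t) (Z t)) (hi : ∀ t, Function.Injective (hP t).evB)
    (f : POpen F b →+* L) (hf : ∀ r, f (toP F b r) = algebraMap (PRing F) L r) (m l : Fin n) :
    (mkL L hX hZ.smooth hX1 hZ1 hP hi).reg (KQ.map 2 f (symb (pent F b m l))) =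
      pr Z (fun t => X t - s (b m)) - pr Z (fun t => X t - s (b l)) := by
  have nX : ∀ m, NZ fun t => X t - s (b m) := fun m =>
    ⟨hX.sub contDiff_const, fun t => sub_ne_zero.2 ((hP t).ne m)⟩
  rw [← pr_div hZ (nX m) (nX l), ← pairing_eq_pr hZ ((nX m).div (nX l)), KQ.map_symb,
    Torus.reg_symb]
  unfold Torus.pair
  have hux : ∀ (θ : Fin 1 → ℝ) (m : Fin n), (mkL L hX hZ.smooth hX1 hZ1 hP hi).e θ
      (f (ux F b m : POpen F b)) = X (θ 0) - s (b m) := by
    intro θ m
    rw [coe_ux, hf, mkL_e, (hP (θ 0)).evB_ppol]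
    simp
  congr 1
  funext i θ
  fin_cases i
  · show (mkL L hX hZ.smooth hX1 hZ1 hP hi).e θ (f (uz F b : POpen F b)) = Z (θ 0)
    rw [coe_uz, hf, mkL_e, (hP (θ 0)).evB_pz]
  · show (mkL L hX hZ.smooth hX1 hZ1 hP hi).e θ
      (f ((ux F b m / ux F b l : (POpen F b)ˣ) : POpen F b)) =
      (X (θ 0) - s (b m)) / (X (θ 0) - s (b l))
    have h1 : (mkL L hX hZ.smooth hX1 hZ1 hP hi).e θ
        (f ((ux F b m / ux F b l : (POpen F b)ˣ) : POpen F b)) *
        (mkL L hX hZ.smooth hX1 hZ1 hP hi).e θ (f (ux F b l : POpen F b)) =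
        (mkL L hX hZ.smooth hX1 hZ1 hP hi).e θ (f (ux F b m : POpen F b)) := by
      rw [← map_mul, ← map_mul, ← Units.val_mul, div_mul_cancel]
    rw [hux, hux] at h1
    rw [eq_div_iff (sub_ne_zero.2 ((hP (θ 0)).ne l))]
    exact h1

end field

section loops

variable {k : Type*} [Field k] {s : k →+* ℂ} {c t p q : k} {V : Set ℂ} {Y : ℂ → ℂ}

/-- The loops of `exists_loop_half`, on a circle with transcendental radius. -/
theorem exists_loop_tr (h : Half (s c) (s t) (s p) (s q) V Y) (hc : c ≠ 0)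
    (hp : Spc s (c * p ^ 2 + t)) (hq : Spc s (c * q ^ 2 + t)) :
    ∃ X Z : ℝ → ℂ, LoopOn s c t X Z ∧ (∀ y, Transcendental ℚ (Z y)) ∧
      0 < dpr s X Z p * dpr s X Z q := by
  obtain ⟨R₀, hR₀, hRV₀⟩ := Pool.Agent.Y775.CC.exists_radius' h.isOpen h.mem
  obtain ⟨R, hR, hRlt, hRtr⟩ := exists_radius_btw hR₀
  have hRV : ∀ u : ℂ, 1 ≤ ‖u‖ → ‖u‖ ≤ R → u + u⁻¹ ∈ V := fun u h1 h2 => hRV₀ u h1 (h2.trans hRlt.le)
  have hR0 : 0 < R := one_pos.trans hR
  have hz := nz_circ hR0
  set u : ℝ → ℂ := fun t => circ R t + (circ R t)⁻¹ with hu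
  have hucd : ContDiff ℝ 2 u := (contDiff_circ R).add ((contDiff_circ R).inv hz.ne_zero)
  have hub : ∀ t, u t ∈ V := by
    intro t
    have h1 : ‖circ R t‖ = R := norm_circ hR0.le t
    exact hRV _ (by rw [h1]; exact hR.le) h1.le
  have hper : ∀ t, u (t + 1) = u t := fun t => by
    simp only [hu, circ_add_one]
  set X : ℝ → ℂ := fun y => Y (u y) with hX
  have hYcd : ContDiff ℝ 2 X := by
    rw [contDiff_iff_contDiffAt]
    intro t
    have han : AnalyticAt ℂ Y (u t) := h.diff.analyticAt (h.isOpen.mem_nhds (hub t))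
    exact (han.contDiffAt.restrict_scalars ℝ).comp t hucd.contDiffAt
  have hYper : ∀ t, X (t + 1) = X t := fun t => by
    simp only [hX, hper]
  have hval : ∀ y, s c * X y ^ 2 + s t = u y := fun y => h.eq _ (hub y)
  have hdiff : ∀ w : k, ∀ ζ : ℂ, s (c * w ^ 2 + t) = ζ + ζ⁻¹ → ∀ y,
      s c * ((X y - s w) * (X y - s (-w))) = circ R y + (circ R y)⁻¹ - (ζ + ζ⁻¹) := by
    intro w ζ hζ' y
    have h3 := hval y
    have h4 : u y = circ R y + (circ R y)⁻¹ := rfl
    rw [← h4, ← h3, ← hζ']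
    simp only [map_add, map_mul, map_pow, map_neg]
    ring
  have hne : ∀ w : k, Spc s (c * w ^ 2 + t) → ∀ y, X y ≠ s w := by
    intro w hw y h
    obtain ⟨ζ, hζ, hζ'⟩ := hw
    have h1 := hdiff w ζ hζ' y
    rw [h, sub_self, zero_mul, mul_zero] at h1
    exact (wn_joukowski hR hζ).1.ne_zero y h1.symm
  have hLoop : LoopOn s c t X (circ R) := by
    refine ⟨hYcd, hz, hYper, circ_add_one R, fun y => ?_, hne⟩
    rw [hval y]
    have h2 : circ R y * (circ R y)⁻¹ = 1 := mul_inv_cancel₀ (hz.ne_zero y)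
    have h4 : u y = circ R y + (circ R y)⁻¹ := rfl
    rw [h4]
    linear_combination -h2
  refine ⟨X, circ R, hLoop, fun y => transcendental_of_norm hRtr (norm_circ hR0.le y), ?_⟩
  have nY : ∀ w : k, Spc s (c * w ^ 2 + t) → NZ fun y => X y - s w := fun w hw =>
    ⟨hYcd.sub contDiff_const, fun y => sub_ne_zero.2 (hne w hw y)⟩
  have hc0 : s c ≠ 0 := (map_ne_zero s).2 hc
  have key : ∀ w : k, Spc s (c * w ^ 2 + t) → (∀ y, 0 < (X y * conj (s w)).re) →
      0 < dpr s X (circ R) w := by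
    intro w hw hside
    have n1 := nY w hw
    have hplus : ∀ y, 0 < ((X y - s (-w)) * conj (s w)).re := by
      intro y
      have e : (X y - s (-w)) * conj (s w) = X y * conj (s w) + ((Complex.normSq (s w) : ℝ) : ℂ) := by
        rw [← Complex.mul_conj, map_neg]
        ring
      rw [e, Complex.add_re, Complex.ofReal_re]
      have h1 := hside y
      have h2 := Complex.normSq_nonneg (s w)
      linarith
    obtain ⟨n2, w2⟩ := wn_half (hYcd.sub contDiff_const)
      (fun t => by simp only [hYper]) hplus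
    have w1 : wn (fun y => X y - s w) = 2 * π := by
      obtain ⟨ζ, hζ, hζ'⟩ := hw
      have hcc : NZ fun _ : ℝ => s c := ⟨contDiff_const, fun _ => hc0⟩
      have h1 := wn_mul hcc (n1.mul n2)
      have h2 : (fun y => s c * ((X y - s w) * (X y - s (-w)))) =
          fun y => circ R y + (circ R y)⁻¹ - (ζ + ζ⁻¹) := funext fun y => hdiff w ζ hζ' y
      have h3 : wn (fun _ : ℝ => s c) = 0 := by
        unfold wn
        simp
      rw [h2, (wn_joukowski hR hζ).2, wn_mul n1 n2, w2, h3] at h1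
      linarith
    unfold dpr
    rw [pr_circ_eq hR0 n1, pr_circ_eq hR0 n2, w1, w2]
    have hle : ∀ y, ‖X y - s w‖ ≤ ‖X y - s (-w)‖ := by
      intro y
      have h2 : ‖X y - s w‖ ^ 2 ≤ ‖X y - s (-w)‖ ^ 2 := by
        rw [map_neg, ← Complex.normSq_eq_norm_sq, ← Complex.normSq_eq_norm_sq, Complex.normSq_sub,
          Complex.normSq_sub, Complex.normSq_neg, map_neg, mul_neg, Complex.neg_re]
        have := hside y
        linarith
      exact (pow_le_pow_iff_left₀ (norm_nonneg _) (norm_nonneg _) two_ne_zero).1 h2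
    have hint : ∫ y in (0 : ℝ)..1, Real.log ‖X y - s w‖ ≤
        ∫ y in (0 : ℝ)..1, Real.log ‖X y - s (-w)‖ := by
      refine intervalIntegral.integral_mono_on zero_le_one
        (n1.cont_log.intervalIntegrable _ _) (n2.cont_log.intervalIntegrable _ _) fun y _ => ?_
      exact Real.log_le_log (norm_pos_iff.2 (n1.ne_zero y)) (hle y)
    have hlog : 0 < Real.log R := Real.log_pos hR
    have hpi := Real.pi_pos
    have h5 : 0 < Real.log R * (2 * π) := by positivity
    have h6 := mul_le_mul_of_nonneg_left hint (by positivity : 0 ≤ 2 * π)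
    linarith
  exact mul_pos (key p hp fun y => h.rep _ (hub y)) (key q hq fun y => h.req _ (hub y))

/-- A loop in the spectrum of the function field. -/
theorem torusL [NumberField k] (hc : c ≠ 0) {X Z : ℝ → ℂ} (h : LoopOn s c t X Z)
    (htr : ∀ y, Transcendental ℚ (Z y))
    (hp : Spc s (c * p ^ 2 + t)) (hq : Spc s (c * q ^ 2 + t))
    (L : Type*) [Field L] [Algebra (PRing (qf c t)) L] [IsFractionRing (PRing (qf c t)) L]
    (f : POpen (qf c t) (pts p q) →+* L)
    (hf : ∀ r, f (toP (qf c t) (pts p q) r) = algebraMap (PRing (qf c t)) L r) :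
    ∃ Γ : Torus L 1,
      (∀ θ (y : k), Γ.e θ (algebraMap (PRing (qf c t)) L (ppol (qf c t) (C y))) = s y) ∧
      Γ.reg (KQ.map 2 f (symb (pent (qf c t) (pts p q) 0 1))) = dpr s X Z p ∧
      Γ.reg (KQ.map 2 f (symb (pent (qf c t) (pts p q) 2 3))) = dpr s X Z q := by
  have hdeg : 0 < (qf c t).natDegree := by
    rw [natDegree_qf hc]
    norm_num
  have hp' : Spc s (c * (-p) ^ 2 + t) := by rwa [neg_sq]
  have hq' : Spc s (c * (-q) ^ 2 + t) := by rwa [neg_sq]
  have hP : ∀ y, PtS s (qf c t) (pts p q) (X y) (Z y) := by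
    intro y
    refine ⟨?_, fun m => ?_⟩
    · rw [eval₂_qf]
      exact h.eq y
    · fin_cases m
      · exact h.ne p hp y
      · exact h.ne (-p) hp' y
      · exact h.ne q hq y
      · exact h.ne (-q) hq' y
  have hi : ∀ y, Function.Injective (hP y).evB := fun y => evB_inj hdeg (hP y) (htr y)
  refine ⟨mkL L h.hX h.nZ.smooth h.hX1 h.hZ1 hP hi, fun θ y => ?_, ?_, ?_⟩
  · rw [mkL_e, (hP (θ 0)).evB_ppol, eval₂_C]
  · rw [mkL_reg h.hX h.nZ _ _ _ _ f hf]
    rfl
  · rw [mkL_reg h.hX h.nZ _ _ _ _ f hf]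
    rfl

end loops

end Pool.Agent.Helper537_Nf
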