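import Pool.Agent.Helper537_Nf.Inf
import Pool.Agent.Helper537_Nf.Loop
import Pool.Agent.Helper537_Sym.Iso
import Pool.Agent.Helper537_All.Root
set_option autoImplicit false

/-!
The regulator on the anti-invariant unramified classes of the symbols `{z, u}`, `u` a function whose
zeros and poles lie above rational points of the `x`-line, on the curves `z + 1/z = c x² + t`.
-/

namespace Pool.Agent.Helper537_Nf

open scoped WithZero
open Polynomial TensorProduct
open Pool.Agent.TH826.MK (KQ symb unitPart Unramified Torus)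
open Pool.Agent.TH826.HD
open Pool.Agent.Helper537_Sym
open Pool.Agent.Helper537_All (exists_w pow_one_of sq_aux)
open Pool.Agent.TH690.UE

section alg

variable {k : Type*} [Field k] {F : k[X]} {L : Type*} [Field L] [Algebra (PRing F) L]
  [IsFractionRing (PRing F) L]

theorem e_comp (P : k[X]) : eP F L (P.comp F) = P.eval₂ (ec (eP F L)) (eP F L F) := by
  rw [← eval_eP (F := F) (L := L) (P.comp F), eval₂_comp, eval_eP]

theorem e_dickson (n : ℕ) : eP F L ((dickson 1 (1 : k) n).comp F) =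
    (zF F L : L) ^ n + ((zF F L)⁻¹ : Lˣ) ^ n := by
  rw [e_comp, ← eval_map, map_dickson, map_one, ← zF_add_inv,
    dickson_one_one_eval_add_inv _ _ (by rw [← Units.val_mul, mul_inv_cancel, Units.val_one])]

/-- A point which is not in `TBc` is a torsion point. -/
theorem not_tbc [CharZero k] {c : k} (hc : c ∉ TBc F L) (s : k →+* ℂ) :
    ∃ (ζ : ℂ) (n : ℕ), n ≠ 0 ∧ ζ ^ n = 1 ∧ s (F.eval c) = ζ + ζ⁻¹ := by
  have hm := monic_X_sub_C c
  have hi := irreducible_X_sub_C c
  obtain ⟨v, hvs, hv, hvπ⟩ := hval (F := F) (L := L) _ hm hi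
  have h1 : ¬ ∀ n : ℕ, v ((zF F L : L) ^ n - 1) < 1 → n = 0 := fun h =>
    hc ⟨v, hvs, hv, hvπ, h⟩
  push Not at h1
  obtain ⟨n, hn, hn0⟩ := h1
  have hz := vz_one (ve_le hv hm hvπ F)
  have hdvd : (X - C c) ∣ (dickson 1 (1 : k) n).comp F - C 2 := by
    rw [← ve_lt_iff hv hm hi hvπ, map_sub, e_dickson]
    have h2 : eP F L (C 2) = 2 := map_ofNat (ec (eP F L)) 2
    have h3 : (zF F L : L) ^ n * ((zF F L)⁻¹ : Lˣ) ^ n = 1 := by
      rw [← mul_pow, ← Units.val_mul, mul_inv_cancel, Units.val_one, one_pow]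
    have h4 : (zF F L : L) ^ n + ((zF F L)⁻¹ : Lˣ) ^ n - eP F L (C 2) =
        ((zF F L : L) ^ n - 1) ^ 2 * ((zF F L)⁻¹ : Lˣ) ^ n := by
      rw [h2]
      exact sq_aux h3
    rw [h4, map_mul, map_pow, map_pow, Units.val_inv_eq_inv_val, map_inv₀, hz, inv_one, one_pow,
      mul_one]
    exact pow_lt_one₀ zero_le hn (by norm_num)
  obtain ⟨ζ, h0, hζ⟩ := exists_w (s (F.eval c))
  refine ⟨ζ, n, hn0, ?_, hζ⟩
  apply pow_one_of h0
  have h5 := dvd_iff_isRoot.1 hdvd
  have h6 : (dickson 1 (1 : k) n).eval (F.eval c) = 2 := by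
    have h7 : ((dickson 1 (1 : k) n).comp F - C 2).eval c = 0 := h5
    rw [eval_sub, eval_comp, eval_C, sub_eq_zero] at h7
    exact h7
  have h8 := congrArg s h6
  rw [← eval_map_apply, map_dickson, map_one, hζ,
    dickson_one_one_eval_add_inv _ _ (mul_inv_cancel₀ h0), map_ofNat] at h8
  exact h8

variable (F L) in
/-- The space of the symbols `{z, u}`, `u` a function whose norm to `k(x)` is a quotient of products
of linear polynomials over `k`, and of the classes invariant under the involution. -/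
noncomputable def VZ : Submodule ℚ (KQ L 2) :=
  Submodule.span ℚ {s | ∃ u : Lˣ, (∃ P R : k[X], R ≠ 0 ∧ P.Splits ∧ R.Splits ∧
    (u : L) * sig F L u = algebraMap (PRing F) L (ppol F P) / algebraMap (PRing F) L (ppol F R)) ∧
      s = symb ![zF F L, u]} ⊔ LinearMap.eqLocus (KQ.map 2 (sig F L)) LinearMap.id

variable (F L) in
/-- The anti-invariant classes in this space that are unramified at all discrete valuations. -/
noncomputable def Cls : Submodule ℚ (KQ L 2) :=
  VZ F L ⊓ Unramified L 2 ⊓ LinearMap.eqLocus (KQ.map 2 (sig F L)) (-LinearMap.id)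

variable (F L) in
/-- The symbols of `z` and a product of linear polynomials. -/
noncomputable def Zq : Submodule ℚ (KQ L 2) :=
  Submodule.span ℚ {s | ∃ P : k[X], P ≠ 0 ∧ P.Splits ∧ s = sy (zF F L) (pu (eP F L) P)}

theorem nrm (u : Lˣ) : ∃ w : Lˣ, (w : L) = (u : L) * sig F L u :=
  ⟨u * Units.map (sig F L : L →* L) u, rfl⟩

theorem vz_sub {κ : KQ L 2} (h : κ ∈ VZ F L) : κ - KQ.map 2 (sig F L) κ ∈ Zq F L := by
  have h1 : VZ F L ≤ (Zq F L).comap (LinearMap.id - KQ.map 2 (sig F L)) := by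
    unfold VZ
    refine sup_le ?_ ?_
    · rw [Submodule.span_le]
      rintro _ ⟨u, ⟨P, R, hR, hQP, hQR, h1⟩, rfl⟩
      show sy (zF F L) u - KQ.map 2 (sig F L) (sy (zF F L) u) ∈ Zq F L
      have hR' : eP F L R ≠ 0 := e_ne eP_inj hR
      have hP : P ≠ 0 := by
        rintro rfl
        rw [map_zero, map_zero, zero_div] at h1
        obtain ⟨w, hw⟩ := nrm (F := F) u
        rw [← hw] at h1
        exact w.ne_zero h1
      rw [map_sy', sig_zu, sy_inv_left, sub_neg_eq_add, ← sy_mul_right]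
      have h2 : u * Units.map (sig F L : L →* L) u = pu (eP F L) P * (pu (eP F L) R)⁻¹ := by
        rw [eq_mul_inv_iff_mul_eq]
        apply Units.ext
        rw [Units.val_mul, pu_val eP_inj hR, pu_val eP_inj hP]
        have h3 : ((u * Units.map (sig F L : L →* L) u : Lˣ) : L) = eP F L P / eP F L R := h1
        rw [h3, div_mul_cancel₀ _ hR']
      rw [h2, sy_mul_right, sy_inv_right]
      exact Submodule.add_mem _ (Submodule.subset_span ⟨P, hP, hQP, rfl⟩)
        (Submodule.neg_mem _ (Submodule.subset_span ⟨R, hR, hQR, rfl⟩))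
    · intro κ hκ
      have h2 : KQ.map 2 (sig F L) κ = κ := hκ
      show κ - KQ.map 2 (sig F L) κ ∈ Zq F L
      rw [h2, sub_self]
      exact Submodule.zero_mem _
  exact h1 h

theorem cls_zq {κ : KQ L 2} (h : κ ∈ Cls F L) : κ ∈ Zq F L ∧ κ ∈ Unramified L 2 := by
  obtain ⟨⟨h1, h2⟩, h3⟩ := h
  refine ⟨?_, h2⟩
  have h4 := vz_sub h1
  have h5 : KQ.map 2 (sig F L) κ = -κ := h3
  rw [h5, sub_neg_eq_add] at h4
  have h6 := Submodule.smul_mem _ (2 : ℚ)⁻¹ h4
  rwa [← two_smul ℚ κ, smul_smul, inv_mul_cancel₀ two_ne_zero, one_smul] at h6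

theorem sig_zx (c : k) : KQ.map 2 (sig F L) (zx F L c) = -zx F L c := by
  unfold zx
  rw [map_sy', sig_pu (X_sub_C_ne_zero c), sig_zu, sy_inv_left]

theorem zx_vz (c : k) : zx F L c ∈ VZ F L := by
  refine (le_sup_left : _ ≤ VZ F L) (Submodule.subset_span ⟨_, ⟨(X - C c) ^ 2, 1,
    one_ne_zero, (Splits.X_sub_C c).pow 2, Splits.one, ?_⟩, rfl⟩)
  rw [pu_val eP_inj (X_sub_C_ne_zero _), sig_eP, map_one, map_one, div_one]
  show eP F L (X - C c) * eP F L (X - C c) = eP F L ((X - C c) ^ 2)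
  rw [map_pow, sq]

theorem zx_sub_cls {c d : k} (h : zx F L c - zx F L d ∈ Unramified L 2) :
    zx F L c - zx F L d ∈ Cls F L := by
  refine ⟨⟨Submodule.sub_mem _ (zx_vz c) (zx_vz d), h⟩, ?_⟩
  show KQ.map 2 (sig F L) (zx F L c - zx F L d) = -(zx F L c - zx F L d)
  rw [map_sub, sig_zx, sig_zx]
  abel

end alg

section quad

variable {k : Type*} [Field k] {c t p q : k} {L : Type*} [Field L]
  [Algebra (PRing (qf c t)) L] [IsFractionRing (PRing (qf c t)) L]

/-- The relation from a special value. -/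
theorem rel (hc : c ≠ 0) {τ : ℤ} (hτ : |τ| ≤ 2) (hp : c * p ^ 2 + t = τ) :
    Zt (qf c t) L ((1 : ℚ) ⊗ₜ[ℤ] Additive.ofMul (Units.mk0 c hc)) + zx (qf c t) L p +
      zx (qf c t) L (-p) = 0 := by
  have he := eP_inj (F := qf c t) (L := L)
  set z := zF (qf c t) L with hz
  set cu : Lˣ := kc (ec (eP (qf c t) L)) (Units.mk0 c hc) with hcu
  have h1 : sy z (z * (cu * pu (eP (qf c t) L) (X - C p) * pu (eP (qf c t) L) (X - C (-p)))) = 0 := by
    refine sy_quad hτ ?_
    rw [Units.val_mul, Units.val_mul, Units.val_mul, pu_val he (X_sub_C_ne_zero p),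
      pu_val he (X_sub_C_ne_zero (-p))]
    have h2 : (cu : L) = eP (qf c t) L (C c) := rfl
    have h3 : (τ : L) = eP (qf c t) L (C (τ : k)) := (map_intCast (ec (eP (qf c t) L)) τ).symm
    have h4 : eP (qf c t) L (qf c t) = eP (qf c t) L (C c) * eP (qf c t) L (X - C p) *
        eP (qf c t) L (X - C (-p)) + eP (qf c t) L (C (τ : k)) := by
      rw [← map_mul, ← map_mul, ← map_add]
      congr 1
      rw [← hp]
      unfold qf
      simp only [map_add, map_mul, map_pow, map_neg]
      ring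
    have h5 := zF_quad (F := qf c t) (L := L)
    rw [h4, ← hz] at h5
    rw [h2, h3]
    linear_combination -h5
  rw [sy_mul_right, sy_self, zero_add, sy_mul_right, sy_mul_right] at h1
  rw [zt_tmul, one_smul]
  exact h1

/-- The upper bound. -/
theorem cls_le [CharZero k] (hc : c ≠ 0) {τ σ : ℤ} (hτ : |τ| ≤ 2) (hσ : |σ| ≤ 2)
    (hp : c * p ^ 2 + t = τ) (hq : c * q ^ 2 + t = σ) (hτσ : τ ≠ σ) (hp0 : p ≠ 0) (hq0 : q ≠ 0)
    (hS : ∀ a : k, a ∉ TBc (qf c t) L → a = p ∨ a = -p ∨ a = q ∨ a = -q) :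
    Cls (qf c t) L ≤ Submodule.span ℚ (Set.range ![zx (qf c t) L p - zx (qf c t) L (-p),
      zx (qf c t) L q - zx (qf c t) L (-q)]) := by
  intro κ hκ
  obtain ⟨h1, h2⟩ := cls_zq hκ
  obtain ⟨m, n, h3⟩ := zrep eP_inj h1
  rw [h3] at h2
  have hdeg : (qf c t).natDegree = 2 := natDegree_qf hc t
  have hlead : (qf c t).leadingCoeff = c := leadingCoeff_qf hc t
  have h4 := inf_step (F := qf c t) (L := L) (by rw [hdeg]; norm_num) (by rw [hlead]; exact hc) h2
  have hn : ∀ a : k, ¬ (a = p ∨ a = -p ∨ a = q ∨ a = -q) → n a = 0 := by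
    intro a ha
    refine coeff_tb h2 ?_
    by_contra h5
    exact ha (hS a h5)
  have hsq : p ^ 2 ≠ q ^ 2 := by
    intro h5
    apply hτσ
    have h6 : (τ : k) = (σ : k) := by rw [← hp, ← hq, h5]
    exact_mod_cast h6
  have d1 : p ≠ -p := fun h => hp0 (by
    have h5 : (2 : k) * p = 0 := by linear_combination h
    exact (mul_eq_zero.1 h5).resolve_left two_ne_zero)
  have d2 : q ≠ -q := fun h => hq0 (by
    have h5 : (2 : k) * q = 0 := by linear_combination h
    exact (mul_eq_zero.1 h5).resolve_left two_ne_zero)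
  have d3 : p ≠ q := fun h => hsq (by rw [h])
  have d4 : p ≠ -q := fun h => hsq (by rw [h, neg_sq])
  have d5 : -p ≠ q := fun h => hsq (by rw [← h, neg_sq])
  have d6 : -p ≠ -q := fun h => d3 (neg_injective h)
  classical
  have hsub : n.support ⊆ {p, -p, q, -q} := by
    intro a ha
    rw [Finsupp.mem_support_iff] at ha
    by_contra h5
    apply ha
    apply hn
    simpa using h5
  have s1 : Finsupp.linearCombination ℚ (zx (qf c t) L) n = n p • zx (qf c t) L p +
      (n (-p) • zx (qf c t) L (-p) + (n q • zx (qf c t) L q + n (-q) • zx (qf c t) L (-q))) := by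
    rw [Finsupp.linearCombination_apply, Finsupp.sum_of_support_subset n hsub
      (fun i r => r • zx (qf c t) L i) (fun i _ => zero_smul _ _), Finset.sum_insert (by simp [d1, d3, d4]),
      Finset.sum_insert (by simp [d5, d6]), Finset.sum_insert (by simp [d2]),
      Finset.sum_singleton]
  have s2 : (n.sum fun _ r => r) = n p + (n (-p) + (n q + n (-q))) := by
    rw [Finsupp.sum_of_support_subset n hsub _ (fun i _ => rfl),
      Finset.sum_insert (by simp [d1, d3, d4]),
      Finset.sum_insert (by simp [d5, d6]), Finset.sum_insert (by simp [d2]),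
      Finset.sum_singleton]
  have r1 := rel (L := L) hc hτ hp
  have r2 := rel (L := L) hc hσ hq
  have hu : ∀ h : (qf c t).leadingCoeff ≠ 0, Units.mk0 (qf c t).leadingCoeff h = Units.mk0 c hc :=
    fun h => Units.ext hlead
  rw [hu, hdeg, s2] at h4
  rw [h3, s1, h4, map_smul]
  set A := Zt (qf c t) L ((1 : ℚ) ⊗ₜ[ℤ] Additive.ofMul (Units.mk0 c hc))
  set B := zx (qf c t) L p
  set B' := zx (qf c t) L (-p)
  set D := zx (qf c t) L q
  set D' := zx (qf c t) L (-q)
  have key : ((n p + (n (-p) + (n q + n (-q)))) / ((2 : ℕ) : ℚ)) • A + (n p • B + (n (-p) • B' +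
      (n q • D + n (-q) • D'))) = ((n p - n (-p)) / 2) • (B - B') +
      ((n q - n (-q)) / 2) • (D - D') := by
    have hA : A = -(B + B') := by
      rw [add_assoc] at r1
      exact eq_neg_of_add_eq_zero_left r1
    have hD : D' = B + B' - D := by
      have h5 : A + D + D' = 0 := r2
      rw [hA] at h5
      have h6 : D' = -(-(B + B') + D) := by
        rw [← add_eq_zero_iff_eq_neg']
        exact h5
      rw [h6]
      abel
    rw [hD, hA]
    push_cast
    module
  rw [key]
  refine Submodule.add_mem _ (Submodule.smul_mem _ _ ?_) (Submodule.smul_mem _ _ ?_)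
  · exact Submodule.subset_span ⟨0, rfl⟩
  · exact Submodule.subset_span ⟨1, rfl⟩

/-- The symbols in the field. -/
theorem map_pent (f : POpen (qf c t) (pts p q) →+* L)
    (hf : ∀ r, f (toP (qf c t) (pts p q) r) = algebraMap (PRing (qf c t)) L r) (i j : Fin 4) :
    KQ.map 2 f (symb (pent (qf c t) (pts p q) i j)) =
      zx (qf c t) L (pts p q i) - zx (qf c t) L (pts p q j) := by
  have he := eP_inj (F := qf c t) (L := L)
  have hz : Units.map (f : POpen (qf c t) (pts p q) →* L) (uz (qf c t) (pts p q)) =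
      zF (qf c t) L := by
    apply Units.ext
    show f (uz (qf c t) (pts p q) : POpen (qf c t) (pts p q)) = _
    rw [coe_uz, hf]
    rfl
  have hx : ∀ m, Units.map (f : POpen (qf c t) (pts p q) →* L) (ux (qf c t) (pts p q) m) =
      pu (eP (qf c t) L) (X - C (pts p q m)) := by
    intro m
    apply Units.ext
    show f (ux (qf c t) (pts p q) m : POpen (qf c t) (pts p q)) = _
    rw [coe_ux, hf, pu_val he (X_sub_C_ne_zero _)]
    rfl
  unfold pent
  show KQ.map 2 f (symb ![uz (qf c t) (pts p q),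
    ux (qf c t) (pts p q) i / ux (qf c t) (pts p q) j]) = _
  rw [map_sy, _root_.map_div, hz, hx, hx, div_eq_mul_inv, sy_mul_right, sy_inv_right]
  exact (sub_eq_add_neg _ _).symm

end quad

end Pool.Agent.Helper537_Nf
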