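import Pool.Agent.Helper537_All.Res
set_option autoImplicit false

/-!
Discrete valuations at an irreducible polynomial.
-/

namespace Pool.Agent.Helper537_Nf

open scoped WithZero
open Polynomial
open Pool.Agent.TH826.MK (KQ symb unitPart Unramified)
open Pool.Agent.Helper537_Sym
open Pool.Agent.Helper537_All (RF residue_eq_zero)

variable {k L : Type*} [Field k] [Field L] (e : k[X] →+* L)

/-- A polynomial as a unit of the field. -/
noncomputable def pu (P : k[X]) : Lˣ := by
  classical
  exact if h : e P ≠ 0 then Units.mk0 (e P) h else 1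

variable {e}

theorem e_ne (he : Function.Injective e) {P : k[X]} (hP : P ≠ 0) : e P ≠ 0 :=
  (map_ne_zero_iff e he).2 hP

theorem pu_val (he : Function.Injective e) {P : k[X]} (hP : P ≠ 0) : (pu e P : L) = e P := by
  unfold pu
  rw [dif_pos (e_ne he hP), Units.val_mk0]

theorem pu_mul (he : Function.Injective e) {P Q : k[X]} (hP : P ≠ 0) (hQ : Q ≠ 0) :
    pu e (P * Q) = pu e P * pu e Q := by
  apply Units.ext
  rw [Units.val_mul, pu_val he hP, pu_val he hQ, pu_val he (mul_ne_zero hP hQ), map_mul]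

theorem pu_pow (he : Function.Injective e) {P : k[X]} (hP : P ≠ 0) (n : ℕ) :
    pu e (P ^ n) = pu e P ^ n := by
  apply Units.ext
  rw [Units.val_pow_eq_pow_val, pu_val he hP, pu_val he (pow_ne_zero n hP), map_pow]

/-- The constants. -/
noncomputable abbrev ec (e : k[X] →+* L) : k →+* L := e.comp C

/-- A constant as a unit. -/
noncomputable def kc (f : k →+* L) (x : kˣ) : Lˣ := Units.map (f : k →* L) x

theorem pu_C (he : Function.Injective e) {q : k} (hq : q ≠ 0) :
    pu e (C q) = kc (ec e) (Units.mk0 q hq) := by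
  apply Units.ext
  rw [pu_val he (C_ne_zero.2 hq)]
  rfl

theorem e_eq_sum (P : k[X]) : e P = ∑ i ∈ Finset.range (P.natDegree + 1),
    e (C (P.coeff i)) * e X ^ i := by
  conv_lhs => rw [P.as_sum_range_C_mul_X_pow]
  rw [map_sum]
  refine Finset.sum_congr rfl fun i _ => ?_
  rw [map_mul, map_pow]

section val

variable {v : Valuation L ℤᵐ⁰} (hv : ∀ q : k, q ≠ 0 → v (ec e q) = 1)

include hv

theorem vc_le (q : k) : v (e (C q)) ≤ 1 := by
  by_cases h : q = 0
  · rw [h, C_0, map_zero, map_zero]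
    exact zero_le_one
  · exact (hv q h).le

theorem vX_le {π : k[X]} (hπ : π.Monic) (h : v (e π) < 1) : v (e X) ≤ 1 := by
  by_contra hx
  rw [not_le] at hx
  have h1 : v (e π) = v (e X) ^ π.natDegree := by
    rw [e_eq_sum π, Finset.sum_range_succ, hπ.coeff_natDegree, C_1, map_one, one_mul]
    have h2 : v (∑ i ∈ Finset.range π.natDegree, e (C (π.coeff i)) * e X ^ i) <
        v (e X ^ π.natDegree) := by
      refine Valuation.map_sum_lt v ?_ fun i hi => ?_
      · rw [map_pow]
        exact pow_ne_zero _ (ne_of_gt (zero_lt_one.trans hx))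
      · rw [map_mul, map_pow, map_pow]
        calc v (e (C (π.coeff i))) * v (e X) ^ i ≤ 1 * v (e X) ^ i :=
              mul_le_mul_left (vc_le hv _) _
          _ = v (e X) ^ i := one_mul _
          _ < v (e X) ^ π.natDegree := pow_lt_pow_right₀ hx (Finset.mem_range.1 hi)
    rw [Valuation.map_add_eq_of_lt_right v h2, map_pow]
  rw [h1] at h
  exact absurd h (not_lt.2 (one_le_pow₀ hx.le))

theorem ve_le {π : k[X]} (hπ : π.Monic) (h : v (e π) < 1) (P : k[X]) : v (e P) ≤ 1 := by
  rw [e_eq_sum P]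
  refine Valuation.map_sum_le v fun i _ => ?_
  rw [map_mul, map_pow]
  exact mul_le_one' (vc_le hv _) (pow_le_one' (vX_le hv hπ h) _)

theorem ve_one {π : k[X]} (hπ : π.Monic) (hi : Irreducible π) (h : v (e π) < 1) {P : k[X]}
    (hP : ¬ π ∣ P) : v (e P) = 1 := by
  refine le_antisymm (ve_le hv hπ h P) ?_
  by_contra hlt
  rw [not_le] at hlt
  obtain ⟨a, b, hab⟩ := (hi.coprime_iff_not_dvd).2 hP
  have h1 : v (e (a * π + b * P)) < 1 := by
    rw [map_add, map_mul, map_mul]
    refine Valuation.map_add_lt v ?_ ?_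
    · rw [map_mul, mul_comm]
      exact mul_lt_one_of_lt_of_le h (ve_le hv hπ h a)
    · rw [map_mul, mul_comm]
      exact mul_lt_one_of_lt_of_le hlt (ve_le hv hπ h b)
  rw [hab, map_one, map_one] at h1
  exact lt_irrefl _ h1

theorem ve_lt_iff {π : k[X]} (hπ : π.Monic) (hi : Irreducible π) (h : v (e π) < 1) (P : k[X]) :
    v (e P) < 1 ↔ π ∣ P := by
  constructor
  · intro h1
    by_contra h2
    rw [ve_one hv hπ hi h h2] at h1
    exact lt_irrefl _ h1
  · rintro ⟨Q, rfl⟩
    rw [map_mul, map_mul]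
    exact mul_lt_one_of_lt_of_le h (ve_le hv hπ h Q)

end val

/-- The residue map on polynomials. -/
noncomputable def rho (v : Valuation L ℤᵐ⁰) (h : ∀ P : k[X], v (e P) ≤ 1) : k[X] →+* RF v :=
  (IsLocalRing.residue v.valuationSubring).comp
    (e.codRestrict v.valuationSubring.toSubring fun P => (v.mem_valuationSubring_iff _).2 (h P))

theorem rho_apply (v : Valuation L ℤᵐ⁰) (h : ∀ P : k[X], v (e P) ≤ 1) (P : k[X]) :
    rho v h P = IsLocalRing.residue v.valuationSubring
      ⟨e P, (v.mem_valuationSubring_iff _).2 (h P)⟩ := rfl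

theorem rho_eq_zero {v : Valuation L ℤᵐ⁰} (h : ∀ P : k[X], v (e P) ≤ 1) (P : k[X]) :
    rho v h P = 0 ↔ v (e P) < 1 := by
  rw [rho_apply, residue_eq_zero]

end Pool.Agent.Helper537_Nf
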