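import Pool.Agent.Helper537_Nf.Poly
import Pool.Agent.Helper537_Sym.Norm
set_option autoImplicit false

/-!
The hyperelliptic involution `z ↦ 1/z` and `K_2`.
-/

namespace Pool.Agent.Helper537_Nf

open scoped WithZero nonZeroDivisors
open Polynomial
open Pool.Agent.TH826.MK (KQ symb unitPart Unramified)
open Pool.Agent.TH826.HD
open Pool.Agent.Helper537_Sym

variable {k : Type*} [Field k] {F : k[X]} (L : Type*) [Field L] [Algebra (PRing F) L] [IsFractionRing (PRing F) L]

variable (F) in
/-- The embedding of the polynomials. -/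
noncomputable def eP : k[X] →+* L := (algebraMap (PRing F) L).comp (ppol F)

variable (F) in
/-- The unit `z`. -/
noncomputable def zF : Lˣ := Units.map (algebraMap (PRing F) L : PRing F →* L) (zu F)

variable {L}

theorem zF_val : (zF F L : L) = algebraMap (PRing F) L (pz F) := rfl

theorem eP_inj : Function.Injective (eP F L) := by
  rw [injective_iff_map_eq_zero]
  intro P hP
  by_contra hne
  exact ppol_ne_zero hne ((injective_iff_map_eq_zero _).1
    (IsFractionRing.injective (PRing F) L) _ hP)

theorem zF_quad : (zF F L : L) ^ 2 - eP F L F * zF F L + 1 = 0 := by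
  have h := congrArg (algebraMap (PRing F) L) (pz_eq F)
  rw [map_zero, map_add, map_sub, map_mul, map_pow, map_one] at h
  exact h

theorem zF_add_inv : (zF F L : L) + ((zF F L)⁻¹ : Lˣ) = eP F L F := by
  have h := zF_quad (F := F) (L := L)
  have h0 := (zF F L).ne_zero
  rw [Units.val_inv_eq_inv_val]
  field_simp
  linear_combination h

theorem eval_eP (P : k[X]) : P.eval₂ ((eP F L).comp C) (eP F L X) = eP F L P := by
  rw [← hom_eval₂, eval₂_C_X]

theorem alg_el (P Q : k[X]) :
    algebraMap (PRing F) L (el F P Q) = eP F L P + eP F L Q * zF F L := by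
  unfold el
  rw [map_add, map_mul]
  rfl

variable (F L) in
/-- The involution on the coordinate ring. -/
noncomputable def tau : PRing F →+* L :=
  evP ((eP F L).comp C) (eP F L X) ((zF F L)⁻¹ : Lˣ) (by
    rw [eval_eP]
    have h := zF_quad (F := F) (L := L)
    have h0 := (zF F L).ne_zero
    rw [Units.val_inv_eq_inv_val]
    field_simp
    linear_combination h)

theorem tau_el (P Q : k[X]) : tau F L (el F P Q) = eP F L P + eP F L Q * ((zF F L)⁻¹ : Lˣ) := by
  unfold tau el
  rw [map_add, map_mul, evP_ppol, evP_ppol, evP_pz, eval_eP, eval_eP]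

theorem tau_inj : Function.Injective (tau F L) := by
  rw [injective_iff_map_eq_zero]
  intro r hr
  obtain ⟨P, Q, rfl⟩ := exists_el r
  rw [tau_el] at hr
  have h1 : algebraMap (PRing F) L (el F Q P) = 0 := by
    rw [alg_el]
    have h0 : (zF F L : L) * ((zF F L)⁻¹ : Lˣ) = 1 := by
      rw [← Units.val_mul, mul_inv_cancel, Units.val_one]
    linear_combination (zF F L : L) * hr - eP F L Q * h0
  have h2 := (injective_iff_map_eq_zero _).1 (IsFractionRing.injective (PRing F) L) _ h1
  obtain ⟨h3, h4⟩ := el_eq_zero h2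
  rw [h3, h4]
  unfold el
  rw [map_zero, zero_mul, add_zero]

variable (F L) in
/-- The involution. -/
noncomputable def sig : L →+* L := IsFractionRing.lift (A := PRing F) (g := tau F L) tau_inj

theorem sig_alg (r : PRing F) : sig F L (algebraMap (PRing F) L r) = tau F L r :=
  IsFractionRing.lift_algebraMap _ _

theorem sig_eP (P : k[X]) : sig F L (eP F L P) = eP F L P := by
  have h : eP F L P = algebraMap (PRing F) L (el F P 0) := by
    rw [alg_el, map_zero, zero_mul, add_zero]
  rw [h, sig_alg, tau_el, map_zero, zero_mul, add_zero, ← h]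

theorem sig_z : sig F L (zF F L) = ((zF F L)⁻¹ : Lˣ) := by
  have h : (zF F L : L) = algebraMap (PRing F) L (el F 0 1) := by
    rw [alg_el, map_zero, map_one, one_mul, zero_add]
  rw [h, sig_alg, tau_el, map_zero, map_one, one_mul, zero_add]

theorem sig_sig (y : L) : sig F L (sig F L y) = y := by
  have h : (sig F L).comp (sig F L) = RingHom.id L := by
    refine IsLocalization.ringHom_ext (nonZeroDivisors (PRing F)) ?_
    refine RingHom.ext fun r => ?_
    obtain ⟨P, Q, rfl⟩ := exists_el r
    rw [RingHom.comp_apply, RingHom.comp_apply, RingHom.id_comp, alg_el, map_add, map_mul,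
      sig_eP, sig_eP, sig_z, map_add, map_mul, sig_eP, sig_eP]
    congr 2
    rw [Units.val_inv_eq_inv_val, map_inv₀, sig_z, Units.val_inv_eq_inv_val, inv_inv]
  exact congrArg (fun h : L →+* L => h y) h

theorem sig_unr {s : KQ L 2} (hs : s ∈ Unramified L 2) :
    KQ.map 2 (sig F L) s ∈ Unramified L 2 := by
  unfold Unramified at hs ⊢
  rw [Submodule.mem_iInf]
  intro v
  rw [Submodule.mem_iInf]
  intro hv
  have h1 : Function.Surjective (v.comap (sig F L)) := by
    intro a
    obtain ⟨y, hy⟩ := hv a
    refine ⟨sig F L y, ?_⟩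
    rw [Valuation.comap_apply, sig_sig, hy]
  rw [Submodule.mem_iInf] at hs
  have h2 := hs (v.comap (sig F L))
  rw [Submodule.mem_iInf] at h2
  have h3 := h2 h1
  have h4 : unitPart (v.comap (sig F L)) 2 ≤ (unitPart v 2).comap (KQ.map 2 (sig F L)) := by
    conv_lhs => unfold unitPart
    rw [Submodule.span_le]
    rintro _ ⟨a, ha, rfl⟩
    show KQ.map 2 (sig F L) (symb a) ∈ unitPart v 2
    rw [KQ.map_symb]
    exact Submodule.subset_span ⟨fun i => Units.map (sig F L : L →* L) (a i), fun i => ha i, rfl⟩
  exact h4 h3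

theorem sig_pu {P : k[X]} (hP : P ≠ 0) :
    Units.map (sig F L : L →* L) (pu (eP F L) P) = pu (eP F L) P := by
  apply Units.ext
  show sig F L (pu (eP F L) P : L) = _
  rw [pu_val eP_inj hP, sig_eP]

theorem sig_zu : Units.map (sig F L : L →* L) (zF F L) = (zF F L)⁻¹ := by
  apply Units.ext
  exact sig_z

theorem map_sy' (f : L →+* L) (u w : Lˣ) : KQ.map 2 f (sy u w) =
    sy (Units.map (f : L →* L) u) (Units.map (f : L →* L) w) := map_sy f u w

end Pool.Agent.Helper537_Nf
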