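import Pool.Agent.Helper537_Nf.Curve
import Pool.Agent.Helper537_Sym.Span
import Pool.Agent.Helper537_Sym.Indep
set_option autoImplicit false

/-!
The unramified combinations of the symbols of `z` and of products of linear functions of `x` on the
curve `z + 1/z = F(x)` over a field of characteristic zero.
-/

namespace Pool.Agent.Helper537_Nf

open scoped WithZero
open Polynomial TensorProduct
open Pool.Agent.TH826.MK (KQ symb unitPart Unramified)
open Pool.Agent.TH826.HD
open Pool.Agent.Helper537_Sym
open Pool.Agent.Helper537_All (RF residue_eq_zero exists_extend exists_detect ru ru_val exists_lg_res)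

variable {k : Type*} [Field k] {F : k[X]} {L : Type*} [Field L] [Algebra (PRing F) L]

variable (F L) in
/-- The symbols of `z` and the constants, as a linear map on `k^× ⊗ ℚ`. -/
noncomputable def Zt : ℚ ⊗[ℤ] Additive kˣ →ₗ[ℚ] KQ L 2 :=
  LinearMap.liftBaseChange ℚ (AddMonoidHom.toIntLinearMap
    { toFun := fun a => sy (zF F L) (kc (ec (eP F L)) a.toMul)
      map_zero' := by
        show sy (zF F L) (kc (ec (eP F L)) 1) = 0
        unfold kc
        rw [map_one, sy_one_right]
      map_add' := fun a b => by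
        show sy (zF F L) (kc (ec (eP F L)) (a.toMul * b.toMul)) = _
        unfold kc
        rw [map_mul, sy_mul_right] })

theorem zt_tmul (r : ℚ) (a : kˣ) :
    Zt F L (r ⊗ₜ Additive.ofMul a) = r • sy (zF F L) (kc (ec (eP F L)) a) := by
  unfold Zt
  rw [LinearMap.liftBaseChange_tmul]
  rfl

variable (F L) in
/-- The symbol of `z` and `x - c`. -/
noncomputable def zx (c : k) : KQ L 2 := sy (zF F L) (pu (eP F L) (X - C c))

variable (F L) in
/-- The points `c` with a place above `x = c` where `z` is not a root of unity. -/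
def TBc : Set k := {c | ∃ v : Valuation L ℤᵐ⁰,
  Function.Surjective v ∧ (∀ q : k, q ≠ 0 → v (ec (eP F L) q) = 1) ∧ v (eP F L (X - C c)) < 1 ∧
  ∀ n : ℕ, v ((zF F L : L) ^ n - 1) < 1 → n = 0}

/-- Combinations of symbols of `z` and products of linear functions. -/
theorem zrep {κ : KQ L 2} (he : Function.Injective (eP F L))
    (h : κ ∈ Submodule.span ℚ {s | ∃ P : k[X], P ≠ 0 ∧ P.Splits ∧
      s = sy (zF F L) (pu (eP F L) P)}) :
    ∃ (m : ℚ ⊗[ℤ] Additive kˣ) (n : k →₀ ℚ),
      κ = Zt F L m + Finsupp.linearCombination ℚ (zx F L) n := by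
  induction h using Submodule.span_induction with
  | mem x hx =>
    obtain ⟨P, hP, hs, rfl⟩ := hx
    have h0 : P.leadingCoeff ≠ 0 := leadingCoeff_ne_zero.2 hP
    refine ⟨1 ⊗ₜ Additive.ofMul (Units.mk0 _ h0),
      (P.roots.map fun c => Finsupp.single c (1 : ℚ)).sum, ?_⟩
    rw [zt_tmul, one_smul]
    have key : ∀ S : Multiset k, sy (zF F L) (pu (eP F L)
        (C P.leadingCoeff * (S.map fun c => X - C c).prod)) =
        sy (zF F L) (kc (ec (eP F L)) (Units.mk0 _ h0)) +
        Finsupp.linearCombination ℚ (zx F L) (S.map fun c => Finsupp.single c (1 : ℚ)).sum := by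
      intro S
      induction S using Multiset.induction_on with
      | empty =>
        rw [Multiset.map_zero, Multiset.prod_zero, mul_one, Multiset.map_zero, Multiset.sum_zero,
          map_zero, add_zero, pu_C he h0]
      | cons c S ih =>
        have h1 : C P.leadingCoeff * (S.map fun c => X - C c).prod ≠ 0 := by
          refine mul_ne_zero (C_ne_zero.2 h0) ?_
          rw [Ne, Multiset.prod_eq_zero_iff, Multiset.mem_map]
          rintro ⟨c, _, hc⟩
          exact X_sub_C_ne_zero c hc
        have h2 : C P.leadingCoeff * ((c ::ₘ S).map fun c => X - C c).prod =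
            (X - C c) * (C P.leadingCoeff * (S.map fun c => X - C c).prod) := by
          rw [Multiset.map_cons, Multiset.prod_cons]
          ring
        rw [h2, pu_mul he (X_sub_C_ne_zero c) h1, sy_mul_right, ih, Multiset.map_cons,
          Multiset.sum_cons, map_add, Finsupp.linearCombination_single, one_smul]
        unfold zx
        abel
    have h3 := key P.roots
    rw [← hs.eq_prod_roots] at h3
    exact h3
  | zero => exact ⟨0, 0, by rw [map_zero, map_zero, add_zero]⟩
  | add x y _ _ hx hy =>
    obtain ⟨m, n, rfl⟩ := hx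
    obtain ⟨m', n', rfl⟩ := hy
    exact ⟨m + m', n + n', by rw [map_add, map_add]; abel⟩
  | smul a x _ hx =>
    obtain ⟨m, n, rfl⟩ := hx
    exact ⟨a • m, a • n, by rw [map_smul, map_smul, smul_add]⟩

variable [IsFractionRing (PRing F) L]

theorem vz_one {v : Valuation L ℤᵐ⁰} (h : v (eP F L F) ≤ 1) : v (zF F L : L) = 1 := by
  have h1 := zF_add_inv (F := F) (L := L)
  have h0 : v (zF F L : L) ≠ 0 := v_ne v _
  have hi : v (((zF F L)⁻¹ : Lˣ) : L) = (v (zF F L : L))⁻¹ := by
    rw [Units.val_inv_eq_inv_val, map_inv₀]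
  rcases lt_trichotomy (v (zF F L : L)) 1 with hz | hz | hz
  · exfalso
    have h2 : 1 < v (((zF F L)⁻¹ : Lˣ) : L) := by
      rw [hi]
      exact (one_lt_inv₀ (zero_lt_iff.2 h0)).2 hz
    have h3 : v (eP F L F) = v (((zF F L)⁻¹ : Lˣ) : L) := by
      rw [← h1]
      exact Valuation.map_add_eq_of_lt_right v (hz.trans h2)
    rw [h3] at h
    exact absurd h2 (not_lt.2 h)
  · exact hz
  · exfalso
    have h2 : v (((zF F L)⁻¹ : Lˣ) : L) < 1 := by
      rw [hi]
      exact inv_lt_one_of_one_lt₀ hz
    have h3 : v (eP F L F) = v (zF F L : L) := by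
      rw [← h1]
      exact Valuation.map_add_eq_of_lt_left v (h2.trans hz)
    rw [h3] at h
    exact absurd hz (not_lt.2 h)

/-- The coefficients at the points of `TBc` vanish. -/
theorem coeff_tb {m : ℚ ⊗[ℤ] Additive kˣ} {n : k →₀ ℚ}
    (hu : Zt F L m + Finsupp.linearCombination ℚ (zx F L) n ∈ Unramified L 2) {c : k}
    (hc : c ∈ TBc F L) : n c = 0 := by
  obtain ⟨v, hvs, hv, hvπ, hn⟩ := hc
  have he := eP_inj (F := F) (L := L)
  have hm := monic_X_sub_C c
  have hi := irreducible_X_sub_C c
  have hz := vz_one (ve_le hv hm hvπ F)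
  obtain ⟨ψ, h1, h2⟩ := exists_detect (ru v (zF F L) hz) (by
    intro n h
    apply hn
    have h3 := congrArg (fun u : (RF v)ˣ => (u : RF v)) h
    rw [Units.val_pow_eq_pow_val, Units.val_one, ru_val, ← map_pow,
      ← map_one (IsLocalRing.residue v.valuationSubring), ← sub_eq_zero, ← map_sub,
      residue_eq_zero] at h3
    exact h3)
  obtain ⟨l, h3, h4⟩ := exists_lg_res v ψ h1
  have hlz : l.toFun (zF F L) = 1 := by rw [h4 _ hz, h2]
  have hoz : ord v (zF F L) = 0 := ord_of_one hz
  have e1 := tame_unramified hvs l h3 hu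
  have e2 : ∀ m : ℚ ⊗[ℤ] Additive kˣ, tame v l h3 (Zt F L m) = 0 := by
    intro m
    induction m using TensorProduct.induction_on with
    | zero => rw [map_zero, map_zero]
    | tmul r a =>
      have h5 := zt_tmul (F := F) (L := L) r a.toMul
      rw [ofMul_toMul] at h5
      rw [h5, map_smul, tame_sy, hoz, ord_of_one (hv _ a.toMul.ne_zero : v (kc (ec (eP F L))
        a.toMul : L) = 1)]
      simp
    | add x y hx hy => rw [map_add, map_add, hx, hy, add_zero]
  rw [map_add, e2 m, zero_add, Finsupp.linearCombination_apply, Finsupp.sum, map_sum] at e1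
  have e3 : ∀ d ∈ n.support, d ≠ c → tame v l h3 (n d • zx F L d) = 0 := by
    intro d _ hdc
    have h5 : v (pu (eP F L) (X - C d) : L) = 1 := by
      rw [pu_val he (X_sub_C_ne_zero d)]
      refine ve_one hv hm hi hvπ fun h6 => hdc ?_
      have h7 := dvd_iff_isRoot.1 h6
      have h8 : c - d = 0 := by simpa using h7
      exact (sub_eq_zero.1 h8).symm
    rw [map_smul]
    unfold zx
    rw [tame_sy, hoz, ord_of_one h5]
    simp
  by_cases hcs : c ∈ n.support
  · rw [Finset.sum_eq_single_of_mem c hcs fun d hd hdc => e3 d hd hdc, map_smul] at e1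
    unfold zx at e1
    rw [tame_sy, hoz, hlz] at e1
    have h5 : ord v (pu (eP F L) (X - C c)) ≠ 0 := by
      intro h6
      have h7 := ord_eq_zero h6
      rw [pu_val he (X_sub_C_ne_zero c)] at h7
      exact hvπ.ne h7
    have h6 : n c * (ord v (pu (eP F L) (X - C c)) : ℚ) = 0 := by
      simpa using e1
    exact (mul_eq_zero.1 h6).resolve_right (Int.cast_ne_zero.2 h5)
  · exact Finsupp.notMem_support_iff.1 hcs

end Pool.Agent.Helper537_Nf
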